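import Pool.Agent.Helper91.Dich.Defs

/-!
# Building XOR programs step by step
-/

set_option autoImplicit false

namespace Pool.Agent.Helper34.XTW

open Pool.Agent.Dichotomy

variable {V : Type*}

/-- `S` is obtained in one step from the sets in `𝓛`. -/
def Good (𝓛 : Set (Set (V → ZMod 2))) (S : Set (V → ZMod 2)) : Prop :=
  IsAffine S ∨ ∃ (Q : Set (Set (V → ZMod 2))) (P : Set (Set (V → ZMod 2) × Set (V → ZMod 2))),
    Q ⊆ 𝓛 ∧ (∀ p ∈ P, p.1 ∈ 𝓛 ∧ p.2 ∈ 𝓛) ∧
    ∀ x, x ∈ S ↔ (∃ a ∈ Q, x ∈ a) ∨ ∃ p ∈ P, ∃ y ∈ p.1, ∃ z ∈ p.2, x = y + z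

theorem Good.mono {𝓛 𝓛' : Set (Set (V → ZMod 2))} {S : Set (V → ZMod 2)} (h : Good 𝓛 S)
    (hs : 𝓛 ⊆ 𝓛') : Good 𝓛' S := by
  rcases h with h | ⟨Q, P, h1, h2, h3⟩
  · exact Or.inl h
  · exact Or.inr ⟨Q, P, h1.trans hs, fun p hp => ⟨hs (h2 p hp).1, hs (h2 p hp).2⟩, h3⟩

/-- A list of sets each of which is obtained in one step from the later ones. -/
def Chain : List (Set (V → ZMod 2)) → Prop
  | [] => True
  | S :: L => Good {T | T ∈ L} S ∧ Chain L

theorem Chain.append {L K : List (Set (V → ZMod 2))} (hL : Chain L)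
    (hK : ∀ S ∈ K, Good {T | T ∈ L} S) : Chain (K ++ L) := by
  induction K with
  | nil => exact hL
  | cons S K ih =>
    refine ⟨?_, ih (fun S hS => hK S (List.mem_cons_of_mem _ hS))⟩
    exact (hK S List.mem_cons_self).mono (fun T hT => List.mem_append_right _ hT)

/-- All sets of `𝓛` are gates of a program with `n` gates. -/
def Reach (n : ℕ) (𝓛 : Set (Set (V → ZMod 2))) : Prop :=
  ∃ L : List (Set (V → ZMod 2)), Chain L ∧ (∀ S ∈ 𝓛, S ∈ L) ∧ L.length ≤ n

theorem Reach.mono {n n' : ℕ} {𝓛 𝓛' : Set (Set (V → ZMod 2))} (h : Reach n 𝓛) (hn : n ≤ n')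
    (hs : 𝓛' ⊆ 𝓛) : Reach n' 𝓛' := by
  obtain ⟨L, h1, h2, h3⟩ := h
  exact ⟨L, h1, fun S hS => h2 S (hs hS), h3.trans hn⟩

theorem reach_zero : Reach 0 (∅ : Set (Set (V → ZMod 2))) :=
  ⟨[], trivial, fun _ h => absurd h (Set.notMem_empty _), le_rfl⟩

/-- Adding a finite family of sets. -/
theorem Reach.add {n : ℕ} {𝓛 : Set (Set (V → ZMod 2))} (h : Reach n 𝓛) {A : Type*} [Fintype A]
    (f : A → Set (V → ZMod 2)) (hf : ∀ a, Good 𝓛 (f a)) :
    Reach (n + Fintype.card A) (𝓛 ∪ Set.range f) := by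
  classical
  obtain ⟨L, h1, h2, h3⟩ := h
  refine ⟨(Finset.univ : Finset A).toList.map f ++ L, h1.append ?_, ?_, ?_⟩
  · intro S hS
    rw [List.mem_map] at hS
    obtain ⟨a, -, rfl⟩ := hS
    exact (hf a).mono (fun T hT => h2 T hT)
  · rintro S (hS | ⟨a, rfl⟩)
    · exact List.mem_append_right _ (h2 S hS)
    · exact List.mem_append_left _ (List.mem_map.mpr ⟨a, by simp, rfl⟩)
  · rw [List.length_append, List.length_map, Finset.length_toList, Finset.card_univ]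
    omega

/-- Adding one set. -/
theorem Reach.add_one {n : ℕ} {𝓛 : Set (Set (V → ZMod 2))} (h : Reach n 𝓛)
    {S : Set (V → ZMod 2)} (hf : Good 𝓛 S) : Reach (n + 1) (𝓛 ∪ {S}) := by
  have h1 := h.add (A := Unit) (fun _ => S) (fun _ => hf)
  refine h1.mono (by simp) ?_
  rintro T (hT | hT)
  · exact Or.inl hT
  · exact Or.inr ⟨(), hT.symm⟩

/-- The gates of a chain are those of a XOR program. -/
theorem Chain.getElem {L : List (Set (V → ZMod 2))} (hL : Chain L) (i : ℕ) (hi : i < L.length) :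
    Good {T | ∃ j, ∃ hj : j < L.length, i < j ∧ L[j] = T} L[i] := by
  induction L generalizing i with
  | nil => simp at hi
  | cons S L ih =>
    cases i with
    | zero =>
      refine hL.1.mono ?_
      intro T hT
      obtain ⟨j, hj, h⟩ := List.getElem_of_mem hT
      exact ⟨j + 1, by simp [hj], by omega, by simpa using h⟩
    | succ i =>
      have hi' : i < L.length := by simpa using hi
      have := ih hL.2 i hi'
      simp only [List.getElem_cons_succ]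
      refine this.mono ?_
      rintro T ⟨j, hj, hij, h⟩
      exact ⟨j + 1, by simp [hj], by omega, by simpa using h⟩

theorem isProg_of_chain {L : List (Set (V → ZMod 2))} (hL : Chain L) (W : ℕ) :
    IsProg (fun i : Fin L.length => L.length - (i : ℕ)) W (fun i => L[(i : ℕ)]) := by
  intro i
  right
  rcases hL.getElem i i.2 with h | ⟨Q, P, h1, h2, h3⟩
  · exact Or.inl h
  · right
    refine ⟨{a | L[(a : ℕ)] ∈ Q ∧ i < a}, {p | (L[(p.1 : ℕ)], L[(p.2 : ℕ)]) ∈ P ∧ i < p.1 ∧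
      i < p.2}, ?_, ?_, ?_⟩
    · rintro a ⟨-, ha⟩
      have := a.2
      have : (i : ℕ) < a := ha
      show L.length - (a : ℕ) < L.length - (i : ℕ)
      omega
    · rintro p ⟨-, ha, hb⟩
      have e1 := p.1.2
      have e2 := p.2.2
      have e3 : (i : ℕ) < p.1 := ha
      have e4 : (i : ℕ) < p.2 := hb
      constructor
      · show L.length - (p.1 : ℕ) < L.length - (i : ℕ)
        omega
      · show L.length - (p.2 : ℕ) < L.length - (i : ℕ)
        omega
    · intro x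
      rw [h3 x]
      constructor
      · rintro (⟨a, ha, hx⟩ | ⟨p, hp, y, hy, z, hz, hx⟩)
        · obtain ⟨j, hj, hij, rfl⟩ := h1 ha
          exact Or.inl ⟨⟨j, hj⟩, ⟨ha, hij⟩, hx⟩
        · obtain ⟨⟨j, hj, hij, e1⟩, ⟨k, hk, hik, e2⟩⟩ := h2 p hp
          right
          refine ⟨(⟨j, hj⟩, ⟨k, hk⟩), ⟨?_, hij, hik⟩, y, ?_, z, ?_, hx⟩
          · simp only [e1, e2]; exact hp
          · simp only [e1]; exact hy
          · simp only [e2]; exact hz
      · rintro (⟨a, ⟨ha, -⟩, hx⟩ | ⟨p, ⟨hp, -, -⟩, y, hy, z, hz, hx⟩)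
        · exact Or.inl ⟨_, ha, hx⟩
        · exact Or.inr ⟨_, hp, y, hy, z, hz, hx⟩

theorem Reach.prog {n : ℕ} {S : Set (V → ZMod 2)} (h : Reach n {S}) :
    ∃ (m : ℕ) (rk : Fin m → ℕ) (M : Fin m → Set (V → ZMod 2)) (i : Fin m),
      m ≤ n ∧ IsProg rk 0 M ∧ M i = S := by
  obtain ⟨L, h1, h2, h3⟩ := h
  obtain ⟨j, hj, h⟩ := List.getElem_of_mem (h2 S rfl)
  exact ⟨L.length, _, _, ⟨j, hj⟩, h3, isProg_of_chain h1 0, h⟩

end Pool.Agent.Helper34.XTW
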