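import Pool.Agent.Helper34.XTW.Leaf
import Pool.Agent.Helper34.XTW.Reach

/-!
# Dynamic programming along a tree-decomposition: one leaf
-/

set_option autoImplicit false

namespace Pool.Agent.Helper34.XTW

open SimpleGraph Pool.Agent.Dichotomy

variable {V N : Type}

/-- All combinations of a vertex cover of `G[S]` with compatible elements of the factors. -/
def Psi [Fintype N] (G : SimpleGraph V) (S : Finset V)
    (F : N → (V → ZMod 2) → Set (V → ZMod 2)) : Set (V → ZMod 2) :=
  {z | ∃ y : V → ZMod 2, (∀ v ∉ S, y v = 0) ∧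
    (∀ u ∈ S, ∀ v ∈ S, G.Adj u v → y u = 1 ∨ y v = 1) ∧
    ∃ m : N → V → ZMod 2, (∀ i, m i ∈ F i y) ∧ z = y + ∑ i, m i}

/-- A stage of the dynamic programming. -/
structure St [Fintype N] (G : SimpleGraph V) (w : ℕ) (T : SimpleGraph N) (bag : N → Finset V)
    (S : Finset V) (I : Finset N) (F : N → (V → ZMod 2) → Set (V → ZMod 2))
    (𝓛 : Set (Set (V → ZMod 2))) : Prop where
  tree : T.IsTree
  sub : ∀ i, bag i ⊆ S
  edge : ∀ u ∈ S, ∀ v ∈ S, G.Adj u v → ∃ i, u ∈ bag i ∧ v ∈ bag i
  conn : ∀ v ∈ S, (T.induce {i | v ∈ bag i}).Connected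
  size : ∀ i, (bag i).card ≤ w + 1
  loc : ∀ i α β, (∀ v ∈ bag i, α v = β v) → F i α = F i β
  triv : ∀ i ∉ I, ∀ α, F i α = {0}
  zero : {0} ∈ 𝓛
  mem : ∀ i α, F i α ∈ 𝓛

theorem sum_split [Fintype N] [DecidableEq N] {A : Type} [AddCommMonoid A] (l : N) (f : N → A) :
    ∑ i, f i = f l + ∑ i : (({l}ᶜ : Set N) : Type), f i := by
  classical
  rw [Fintype.sum_eq_add_sum_compl l f]
  congr 1
  exact Finset.sum_subtype _ (by intro x; simp) f

/-- The values outside a set are set to zero. -/
def res [DecidableEq V] (R : Finset V) (γ : V → ZMod 2) : V → ZMod 2 :=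
  fun v => if v ∈ R then γ v else 0

/-- Message of a leaf. -/
def msg [DecidableEq V] (G : SimpleGraph V) (Bl Bj : Finset V)
    (Fl : (V → ZMod 2) → Set (V → ZMod 2)) (α : V → ZMod 2) : Set (V → ZMod 2) :=
  {z | ∃ γ : V → ZMod 2, (∀ v ∈ Bj, v ∈ Bl → γ v = α v) ∧
    (∀ u ∈ Bl, ∀ v ∈ Bl, G.Adj u v → γ u = 1 ∨ γ v = 1) ∧
    ∃ m ∈ Fl γ, z = res (Bl \ Bj) γ + m}

/-- Sums. -/
def sums (A B : (V → ZMod 2) → Set (V → ZMod 2)) (α : V → ZMod 2) : Set (V → ZMod 2) :=
  {z | ∃ a ∈ A α, ∃ b ∈ B α, z = a + b}

/-- The new factors after the removal of the leaf `l`. -/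
def newF [DecidableEq N] (l j : N) (F : N → (V → ZMod 2) → Set (V → ZMod 2))
    (B : (V → ZMod 2) → Set (V → ZMod 2)) (i : (({l}ᶜ : Set N) : Type)) :
    (V → ZMod 2) → Set (V → ZMod 2) :=
  if (i : N) = j then sums (F j) B else F i

/-- Removing a leaf: semantics. -/
theorem psi_remove [Fintype N] [DecidableEq N] [DecidableEq V] {G : SimpleGraph V} {w : ℕ}
    {T : SimpleGraph N} {bag : N → Finset V} {S : Finset V} {I : Finset N}
    {F : N → (V → ZMod 2) → Set (V → ZMod 2)} {𝓛 : Set (Set (V → ZMod 2))}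
    (h : St G w T bag S I F 𝓛) {l j : N} (hlj : T.Adj l j) (hu : ∀ i, T.Adj l i → i = j) :
    Psi G S F = Psi G (S \ (bag l \ bag j)) (newF l j F (msg G (bag l) (bag j) (F l))) := by
  have hjl : j ≠ l := fun h => T.ne_of_adj hlj h.symm
  have hjmem : j ∈ ({l}ᶜ : Set N) := hjl
  have hR : ∀ i, i ≠ l → ∀ v ∈ bag i, v ∉ bag l \ bag j := by
    intro i hi v hv hvR
    rw [Finset.mem_sdiff] at hvR
    exact hvR.2 (nbr_mem hu (h.conn v (h.sub i hv)) hvR.1 hv hi)
  ext z
  constructor
  · rintro ⟨y, hy0, hyc, m, hm, rfl⟩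
    set y' : V → ZMod 2 := fun v => if v ∈ bag l \ bag j then 0 else y v with hy'
    have hyy : ∀ i, i ≠ l → ∀ v ∈ bag i, y v = y' v := by
      intro i hi v hv
      rw [hy']; simp only; rw [if_neg (hR i hi v hv)]
    refine ⟨y', ?_, ?_, fun i => if (i : N) = j then m j + (res (bag l \ bag j) y + m l)
      else m i, ?_, ?_⟩
    · intro v hv
      rw [hy']; simp only
      by_cases hvR : v ∈ bag l \ bag j
      · rw [if_pos hvR]
      · rw [if_neg hvR]
        apply hy0
        intro hvS
        exact hv (Finset.mem_sdiff.mpr ⟨hvS, hvR⟩)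
    · intro u hu' v hv huv
      rw [Finset.mem_sdiff] at hu' hv
      rw [hy']; simp only
      rw [if_neg hu'.2, if_neg hv.2]
      exact hyc u hu'.1 v hv.1 huv
    · rintro ⟨i, hi⟩
      have hi' : i ≠ l := hi
      unfold newF
      by_cases hij : i = j
      · subst hij
        simp only [if_true]
        refine ⟨m i, ?_, res (bag l \ bag i) y + m l, ?_, rfl⟩
        · rw [← h.loc i y y' (hyy i hi')]
          exact hm i
        · refine ⟨y, ?_, ?_, m l, hm l, rfl⟩
          · intro v hv _
            exact hyy i hi' v hv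
          · intro u hu' v hv huv
            exact hyc u (h.sub l hu') v (h.sub l hv) huv
      · simp only [hij, if_false]
        rw [← h.loc i y y' (hyy i hi')]
        exact hm i
    · -- the sum
      rw [sum_split l m]
      have e1 : ∑ i : (({l}ᶜ : Set N) : Type), (if (i : N) = j then
          m j + (res (bag l \ bag j) y + m l) else m i) =
          (res (bag l \ bag j) y + m l) + ∑ i : (({l}ᶜ : Set N) : Type), m i := by
        rw [Fintype.sum_eq_add_sum_compl (⟨j, hjmem⟩ : (({l}ᶜ : Set N) : Type)),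
          Fintype.sum_eq_add_sum_compl (⟨j, hjmem⟩ : (({l}ᶜ : Set N) : Type)) (fun i => m i)]
        simp only [if_true]
        have e2 : ∀ i ∈ ({(⟨j, hjmem⟩ : (({l}ᶜ : Set N) : Type))}ᶜ :
            Finset (({l}ᶜ : Set N) : Type)), (if (i : N) = j then
            m j + (res (bag l \ bag j) y + m l) else m i) = m i := by
          intro i hi
          rw [if_neg]
          intro hij
          rw [Finset.mem_compl, Finset.mem_singleton] at hi
          exact hi (Subtype.ext hij)
        rw [Finset.sum_congr rfl e2]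
        abel
      rw [e1]
      have e3 : y = y' + res (bag l \ bag j) y := by
        funext v
        rw [hy']
        simp only [Pi.add_apply, res]
        by_cases hvR : v ∈ bag l \ bag j
        · rw [if_pos hvR, if_pos hvR, zero_add]
        · rw [if_neg hvR, if_neg hvR, add_zero]
      calc y + (m l + ∑ i : (({l}ᶜ : Set N) : Type), m i)
          = (y' + res (bag l \ bag j) y) + (m l + ∑ i : (({l}ᶜ : Set N) : Type), m i) := by
            rw [← e3]
        _ = _ := by abel
  · rintro ⟨y', hy0, hyc, m', hm', rfl⟩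
    have hj := hm' ⟨j, hjmem⟩
    unfold newF at hj
    simp only [if_true] at hj
    obtain ⟨a, ha, b, ⟨γ, hγ1, hγ2, ml, hml, rfl⟩, hab⟩ := hj
    set y : V → ZMod 2 := fun v => if v ∈ bag l \ bag j then γ v else y' v with hy
    have hyy : ∀ i, i ≠ l → ∀ v ∈ bag i, y v = y' v := by
      intro i hi v hv
      rw [hy]; simp only; rw [if_neg (hR i hi v hv)]
    have hyg : ∀ v ∈ bag l, y v = γ v := by
      intro v hv
      rw [hy]; simp only
      by_cases hvR : v ∈ bag l \ bag j
      · rw [if_pos hvR]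
      · rw [if_neg hvR]
        have hvj : v ∈ bag j := by
          by_contra hcon
          exact hvR (Finset.mem_sdiff.mpr ⟨hv, hcon⟩)
        exact (hγ1 v hvj hv).symm
    obtain ⟨m2, hm2l, hm2⟩ : ∃ m2 : N → V → ZMod 2, m2 l = ml ∧
        ∀ i : (({l}ᶜ : Set N) : Type), m2 i = if (i : N) = j then a else m' i := by
      refine ⟨fun i => if hi : i ∈ ({l}ᶜ : Set N) then (if i = j then a else m' ⟨i, hi⟩) else ml,
        ?_, ?_⟩
      · have : l ∉ ({l}ᶜ : Set N) := by simp
        simp only [this, dite_false]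
      · rintro ⟨i, hi⟩
        simp only [hi, dite_true]
    refine ⟨y, ?_, ?_, m2, ?_, ?_⟩
    · intro v hv
      have hvR : v ∉ bag l \ bag j := fun hcon =>
        hv (h.sub l (Finset.mem_sdiff.mp hcon).1)
      rw [hy]; simp only
      rw [if_neg hvR]
      exact hy0 v (fun hcon => hv (Finset.mem_sdiff.mp hcon).1)
    · intro u huS v hvS huv
      obtain ⟨i, hui, hvi⟩ := h.edge u huS v hvS huv
      by_cases hil : i = l
      · subst hil
        rw [hyg u hui, hyg v hvi]
        exact hγ2 u hui v hvi huv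
      · rw [hyy i hil u hui, hyy i hil v hvi]
        exact hyc u (Finset.mem_sdiff.mpr ⟨huS, hR i hil u hui⟩) v
          (Finset.mem_sdiff.mpr ⟨hvS, hR i hil v hvi⟩) huv
    · intro i
      by_cases hil : i = l
      · rw [hil, hm2l, h.loc l y γ hyg]
        exact hml
      · have hi2 := hm2 ⟨i, hil⟩
        simp only at hi2
        rw [hi2]
        by_cases hij : i = j
        · rw [if_pos hij, hij, h.loc j y y' (hyy j hjl)]
          exact ha
        · rw [if_neg hij, h.loc i y y' (hyy i hil)]
          have := hm' ⟨i, hil⟩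
          unfold newF at this
          simp only [hij, if_false] at this
          exact this
    · rw [sum_split l m2, hm2l, Finset.sum_congr rfl (fun i _ => hm2 i)]
      have e1 : ∑ i : (({l}ᶜ : Set N) : Type), m' i =
          (res (bag l \ bag j) γ + ml) + ∑ i : (({l}ᶜ : Set N) : Type),
            (if (i : N) = j then a else m' i) := by
        rw [Fintype.sum_eq_add_sum_compl (⟨j, hjmem⟩ : (({l}ᶜ : Set N) : Type)),
          Fintype.sum_eq_add_sum_compl (⟨j, hjmem⟩ : (({l}ᶜ : Set N) : Type))
            (fun i => if (i : N) = j then a else m' i)]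
        simp only [if_true]
        have e2 : ∀ i ∈ ({(⟨j, hjmem⟩ : (({l}ᶜ : Set N) : Type))}ᶜ :
            Finset (({l}ᶜ : Set N) : Type)), (if (i : N) = j then a else m' i) = m' i := by
          intro i hi
          rw [if_neg]
          intro hij
          rw [Finset.mem_compl, Finset.mem_singleton] at hi
          exact hi (Subtype.ext hij)
        rw [Finset.sum_congr rfl e2, hab]
        abel
      rw [e1]
      have e3 : y = y' + res (bag l \ bag j) γ := by
        funext v
        rw [hy]
        simp only [Pi.add_apply, res]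
        by_cases hvR : v ∈ bag l \ bag j
        · rw [if_pos hvR, if_pos hvR]
          have : y' v = 0 := hy0 v (fun hcon => (Finset.mem_sdiff.mp hcon).2 hvR)
          rw [this, zero_add]
        · rw [if_neg hvR, if_neg hvR, add_zero]
      rw [e3]
      abel

end Pool.Agent.Helper34.XTW
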