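import Pool.Agent.Helper34.XTW.Dp

/-!
# Dynamic programming along a tree-decomposition: redundant leaves, the stage after a leaf
-/

set_option autoImplicit false

namespace Pool.Agent.Helper34.XTW

open SimpleGraph Pool.Agent.Dichotomy

variable {V N : Type}

/-- Removing a leaf whose bag is contained in the next one: semantics. -/
theorem psi_remove_redundant [Fintype N] [DecidableEq N] [DecidableEq V] {G : SimpleGraph V}
    {S : Finset V} {F : N → (V → ZMod 2) → Set (V → ZMod 2)} {l j : N} (hjl : j ≠ l) :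
    Psi G S F = Psi G S (newF l j F (F l)) := by
  have hjmem : j ∈ ({l}ᶜ : Set N) := hjl
  ext z
  constructor
  · rintro ⟨y, hy0, hyc, m, hm, rfl⟩
    refine ⟨y, hy0, hyc, fun i => if (i : N) = j then m j + m l else m i, ?_, ?_⟩
    · rintro ⟨i, hi⟩
      unfold newF
      by_cases hij : i = j
      · subst hij
        simp only [if_true]
        exact ⟨m i, hm i, m l, hm l, rfl⟩
      · simp only [hij, if_false]
        exact hm i
    · rw [sum_split l m]
      have e1 : ∑ i : (({l}ᶜ : Set N) : Type), (if (i : N) = j then m j + m l else m i) =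
          m l + ∑ i : (({l}ᶜ : Set N) : Type), m i := by
        rw [Fintype.sum_eq_add_sum_compl (⟨j, hjmem⟩ : (({l}ᶜ : Set N) : Type)),
          Fintype.sum_eq_add_sum_compl (⟨j, hjmem⟩ : (({l}ᶜ : Set N) : Type)) (fun i => m i)]
        simp only [if_true]
        have e2 : ∀ i ∈ ({(⟨j, hjmem⟩ : (({l}ᶜ : Set N) : Type))}ᶜ :
            Finset (({l}ᶜ : Set N) : Type)), (if (i : N) = j then m j + m l else m i) = m i := by
          intro i hi
          rw [if_neg]
          intro hij
          rw [Finset.mem_compl, Finset.mem_singleton] at hi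
          exact hi (Subtype.ext hij)
        rw [Finset.sum_congr rfl e2]
        abel
      rw [e1]
  · rintro ⟨y, hy0, hyc, m', hm', rfl⟩
    have hj := hm' ⟨j, hjmem⟩
    unfold newF at hj
    simp only [if_true] at hj
    obtain ⟨a, ha, b, hb, hab⟩ := hj
    obtain ⟨m2, hm2l, hm2⟩ : ∃ m2 : N → V → ZMod 2, m2 l = b ∧
        ∀ i : (({l}ᶜ : Set N) : Type), m2 i = if (i : N) = j then a else m' i := by
      refine ⟨fun i => if hi : i ∈ ({l}ᶜ : Set N) then (if i = j then a else m' ⟨i, hi⟩) else b,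
        ?_, ?_⟩
      · have : l ∉ ({l}ᶜ : Set N) := by simp
        simp only [this, dite_false]
      · rintro ⟨i, hi⟩
        simp only [hi, dite_true]
    refine ⟨y, hy0, hyc, m2, ?_, ?_⟩
    · intro i
      by_cases hil : i = l
      · rw [hil, hm2l]; exact hb
      · have hi2 := hm2 ⟨i, hil⟩
        simp only at hi2
        rw [hi2]
        by_cases hij : i = j
        · rw [if_pos hij, hij]; exact ha
        · rw [if_neg hij]
          have := hm' ⟨i, hil⟩
          unfold newF at this
          simp only [hij, if_false] at this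
          exact this
    · rw [sum_split l m2, hm2l, Finset.sum_congr rfl (fun i _ => hm2 i)]
      have e1 : ∑ i : (({l}ᶜ : Set N) : Type), m' i =
          b + ∑ i : (({l}ᶜ : Set N) : Type), (if (i : N) = j then a else m' i) := by
        rw [Fintype.sum_eq_add_sum_compl (⟨j, hjmem⟩ : (({l}ᶜ : Set N) : Type)),
          Fintype.sum_eq_add_sum_compl (⟨j, hjmem⟩ : (({l}ᶜ : Set N) : Type))
            (fun i => if (i : N) = j then a else m' i)]
        simp only [if_true]
        have e2 : ∀ i ∈ ({(⟨j, hjmem⟩ : (({l}ᶜ : Set N) : Type))}ᶜ :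
            Finset (({l}ᶜ : Set N) : Type)), (if (i : N) = j then a else m' i) = m' i := by
          intro i hi
          rw [if_neg]
          intro hij
          rw [Finset.mem_compl, Finset.mem_singleton] at hi
          exact hi (Subtype.ext hij)
        rw [Finset.sum_congr rfl e2, hab]
        abel
      rw [e1]

/-- The structural part of the new stage. -/
theorem st_remove [Fintype N] [DecidableEq N] [DecidableEq V] {G : SimpleGraph V} {w : ℕ}
    {T : SimpleGraph N} {bag : N → Finset V} {S : Finset V} {I : Finset N}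
    {F : N → (V → ZMod 2) → Set (V → ZMod 2)} {𝓛 : Set (Set (V → ZMod 2))}
    (h : St G w T bag S I F 𝓛) {l j : N} (hlj : T.Adj l j) (hu : ∀ i, T.Adj l i → i = j)
    (hT : (T.induce ({l}ᶜ : Set N)).IsTree)
    (B : (V → ZMod 2) → Set (V → ZMod 2))
    (hB : ∀ α β, (∀ v ∈ bag j, α v = β v) → B α = B β)
    (I' : Finset (({l}ᶜ : Set N) : Type))
    (hI' : ∀ i ∉ I', ∀ α, newF l j F B i α = {0})
    {𝓛' : Set (Set (V → ZMod 2))} (h𝓛 : 𝓛 ⊆ 𝓛') (hmem : ∀ α, sums (F j) B α ∈ 𝓛') :
    St G w (T.induce ({l}ᶜ : Set N)) (fun i => bag i) (S \ (bag l \ bag j)) I' (newF l j F B)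
      𝓛' := by
  have hjl : j ≠ l := fun h => T.ne_of_adj hlj h.symm
  have hjmem : j ∈ ({l}ᶜ : Set N) := hjl
  have hR : ∀ i, i ≠ l → ∀ v ∈ bag i, v ∉ bag l \ bag j := by
    intro i hi v hv hvR
    rw [Finset.mem_sdiff] at hvR
    exact hvR.2 (nbr_mem hu (h.conn v (h.sub i hv)) hvR.1 hv hi)
  refine ⟨hT, ?_, ?_, ?_, ?_, ?_, hI', h𝓛 h.zero, ?_⟩
  · rintro ⟨i, hi⟩ v hv
    exact Finset.mem_sdiff.mpr ⟨h.sub i hv, hR i hi v hv⟩
  · intro u hu' v hv huv
    rw [Finset.mem_sdiff] at hu' hv
    obtain ⟨i, h1, h2⟩ := h.edge u hu'.1 v hv.1 huv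
    by_cases hil : i = l
    · subst hil
      refine ⟨⟨j, hjmem⟩, ?_, ?_⟩
      · by_contra hcon
        exact hu'.2 (Finset.mem_sdiff.mpr ⟨h1, hcon⟩)
      · by_contra hcon
        exact hv.2 (Finset.mem_sdiff.mpr ⟨h2, hcon⟩)
    · exact ⟨⟨i, hil⟩, h1, h2⟩
  · intro v hv
    rw [Finset.mem_sdiff] at hv
    have hc := h.conn v hv.1
    obtain ⟨i0, hi0⟩ := hc.nonempty
    have hex : ∃ i, i ≠ l ∧ v ∈ bag i := by
      by_cases h0 : i0 = l
      · subst h0
        refine ⟨j, hjl, ?_⟩
        by_contra hcon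
        exact hv.2 (Finset.mem_sdiff.mpr ⟨hi0, hcon⟩)
      · exact ⟨i0, h0, hi0⟩
    obtain ⟨i, hil, hvi⟩ := hex
    exact conn_remove (A := {i | v ∈ bag i}) hu hc hvi hil
  · rintro ⟨i, hi⟩
    exact h.size i
  · rintro ⟨i, hi⟩ α β hαβ
    unfold newF
    by_cases hij : i = j
    · subst hij
      simp only [if_true]
      unfold sums
      rw [h.loc i α β hαβ, hB α β hαβ]
    · simp only [hij, if_false]
      exact h.loc i α β hαβ
  · rintro ⟨i, hi⟩ α
    unfold newF
    by_cases hij : i = j
    · simp only [hij, if_true]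
      exact hmem α
    · simp only [hij, if_false]
      exact h𝓛 (h.mem i α)

end Pool.Agent.Helper34.XTW
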