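import Pool.Agent.Helper34.XTW.Dp2

/-!
# Dynamic programming along a tree-decomposition: counting gates
-/

set_option autoImplicit false

namespace Pool.Agent.Helper34.XTW

open SimpleGraph Pool.Agent.Dichotomy

variable {V N : Type}

theorem isAffine_singleton (a : V → ZMod 2) : IsAffine ({a} : Set (V → ZMod 2)) := by
  rintro x rfl y rfl z rfl
  rw [Set.mem_singleton_iff]
  funext v
  simp only [Pi.add_apply, CharTwo.add_self_eq_zero, zero_add]

theorem good_sums {𝓛 : Set (Set (V → ZMod 2))} {A B : (V → ZMod 2) → Set (V → ZMod 2)}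
    {α : V → ZMod 2} (hA : A α ∈ 𝓛) (hB : B α ∈ 𝓛) : Good 𝓛 (sums A B α) := by
  right
  refine ⟨∅, {(A α, B α)}, Set.empty_subset _, ?_, ?_⟩
  · rintro p rfl
    exact ⟨hA, hB⟩
  · intro x
    constructor
    · rintro ⟨a, ha, b, hb, rfl⟩
      exact Or.inr ⟨_, rfl, a, ha, b, hb, rfl⟩
    · rintro (⟨a, ha, _⟩ | ⟨p, rfl, y, hy, z, hz, rfl⟩)
      · exact absurd ha (Set.notMem_empty _)
      · exact ⟨y, hy, z, hz, rfl⟩

/-- Extension by zero. -/
def ext [DecidableEq V] (B : Finset V) (c : B → ZMod 2) : V → ZMod 2 :=
  fun v => if h : v ∈ B then c ⟨v, h⟩ else 0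

theorem ext_apply [DecidableEq V] (B : Finset V) (α : V → ZMod 2) {v : V} (hv : v ∈ B) :
    ext B (fun i => α i) v = α v := by
  unfold ext
  rw [dif_pos hv]

theorem card_fun_le {B : Finset V} {w : ℕ} (h : B.card ≤ w + 1) [DecidableEq V] :
    Fintype.card (B → ZMod 2) ≤ 2 ^ (w + 1) := by
  rw [Fintype.card_fun, ZMod.card, Fintype.card_coe]
  exact Nat.pow_le_pow_right (by norm_num) h

theorem good_msg [DecidableEq V] {G : SimpleGraph V} {𝓛 : Set (Set (V → ZMod 2))}
    {Bl Bj : Finset V} {Fl : (V → ZMod 2) → Set (V → ZMod 2)} (hF : ∀ γ, Fl γ ∈ 𝓛)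
    (hP : ∀ γ : V → ZMod 2, {res (Bl \ Bj) γ} ∈ 𝓛) (α : V → ZMod 2) :
    Good 𝓛 (msg G Bl Bj Fl α) := by
  right
  refine ⟨∅, {p | ∃ γ : V → ZMod 2, ((∀ v ∈ Bj, v ∈ Bl → γ v = α v) ∧
    (∀ u ∈ Bl, ∀ v ∈ Bl, G.Adj u v → γ u = 1 ∨ γ v = 1)) ∧
    p = ({res (Bl \ Bj) γ}, Fl γ)}, Set.empty_subset _, ?_, ?_⟩
  · rintro p ⟨γ, -, rfl⟩
    exact ⟨hP γ, hF γ⟩
  · intro x
    constructor
    · rintro ⟨γ, h1, h2, m, hm, rfl⟩
      exact Or.inr ⟨_, ⟨γ, ⟨h1, h2⟩, rfl⟩, _, rfl, m, hm, rfl⟩
    · rintro (⟨a, ha, _⟩ | ⟨p, ⟨γ, ⟨h1, h2⟩, rfl⟩, y, hy, z, hz, rfl⟩)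
      · exact absurd ha (Set.notMem_empty _)
      · rw [Set.mem_singleton_iff] at hy
        subst hy
        exact ⟨γ, h1, h2, z, hz, rfl⟩

theorem msg_congr [DecidableEq V] {G : SimpleGraph V} {Bl Bj : Finset V}
    {Fl : (V → ZMod 2) → Set (V → ZMod 2)} {α β : V → ZMod 2} (h : ∀ v ∈ Bj, α v = β v) :
    msg G Bl Bj Fl α = msg G Bl Bj Fl β := by
  unfold msg
  ext z
  constructor
  · rintro ⟨γ, h1, h2⟩
    exact ⟨γ, fun v hv hv' => (h1 v hv hv').trans (h v hv), h2⟩
  · rintro ⟨γ, h1, h2⟩
    exact ⟨γ, fun v hv hv' => (h1 v hv hv').trans (h v hv).symm, h2⟩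

theorem dp_base [Fintype N] [DecidableEq N] [DecidableEq V] {G : SimpleGraph V} {w : ℕ}
    {T : SimpleGraph N} {bag : N → Finset V} {S : Finset V} {I : Finset N}
    {F : N → (V → ZMod 2) → Set (V → ZMod 2)} {𝓛 : Set (Set (V → ZMod 2))} {n : ℕ}
    (hc : Fintype.card N ≤ 1) (h : St G w T bag S I F 𝓛) (hr : Reach n 𝓛) :
    Reach (n + 2 ^ (w + 1) * 2) {Psi G S F} := by
  have hsub : Subsingleton N := Fintype.card_le_one_iff_subsingleton.mp hc
  obtain ⟨r⟩ := h.tree.connected.nonempty
  have hall : ∀ i : N, i = r := fun i => Subsingleton.elim i r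
  have hS : ∀ v ∈ S, v ∈ bag r := by
    intro v hv
    obtain ⟨i, hi⟩ := (h.conn v hv).nonempty
    rw [hall i] at hi
    exact hi
  have r1 := hr.add (fun c : bag r → ZMod 2 => ({ext (bag r) c} : Set (V → ZMod 2)))
    (fun c => Or.inl (isAffine_singleton _))
  have r2 := r1.add_one (S := Psi G S F) (by
    right
    refine ⟨∅, {p | ∃ y : V → ZMod 2, ((∀ v ∉ S, y v = 0) ∧
      (∀ u ∈ S, ∀ v ∈ S, G.Adj u v → y u = 1 ∨ y v = 1)) ∧ p = ({y}, F r y)},
      Set.empty_subset _, ?_, ?_⟩
    · rintro p ⟨y, ⟨hy0, -⟩, rfl⟩
      refine ⟨Or.inr ⟨fun i => y i, ?_⟩, Or.inl (h.mem r y)⟩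
      simp only
      congr 1
      funext v
      unfold ext
      by_cases hv : v ∈ bag r
      · rw [dif_pos hv]
      · rw [dif_neg hv]
        exact (hy0 v (fun hvS => hv (hS v hvS))).symm
    · intro x
      constructor
      · rintro ⟨y, hy0, hyc, m, hm, rfl⟩
        refine Or.inr ⟨_, ⟨y, ⟨hy0, hyc⟩, rfl⟩, y, rfl, m r, hm r, ?_⟩
        rw [Fintype.sum_eq_single r (fun i hi => absurd (hall i) hi)]
      · rintro (⟨a, ha, _⟩ | ⟨p, ⟨y, ⟨h1, h2⟩, rfl⟩, y', hy', z, hz, rfl⟩)
        · exact absurd ha (Set.notMem_empty _)
        · rw [Set.mem_singleton_iff] at hy'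
          subst hy'
          refine ⟨y', h1, h2, fun _ => z, fun i => ?_, ?_⟩
          · rw [hall i]; exact hz
          · rw [Fintype.sum_eq_single r (fun i hi => absurd (hall i) hi)])
  refine r2.mono ?_ (fun T hT => Or.inr hT)
  have h1 := card_fun_le (h.size r)
  have h2 : 1 ≤ 2 ^ (w + 1) := Nat.one_le_two_pow
  omega

theorem card_filter_sub [Fintype N] [DecidableEq N] (l : N) (J : Finset N)
    (p : (({l}ᶜ : Set N) : Type) → Prop) [DecidablePred p] (h : ∀ i, p i → (i : N) ∈ J) :
    (Finset.univ.filter p).card ≤ (J.erase l).card := by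
  apply Finset.card_le_card_of_injOn (fun i : (({l}ᶜ : Set N) : Type) => (i : N))
  · intro i hi
    rw [Finset.mem_coe, Finset.mem_filter] at hi
    rw [Finset.mem_coe, Finset.mem_erase]
    exact ⟨i.2, h i hi.2⟩
  · intro a _ b _ hab
    exact Subtype.ext hab

theorem dp_main [DecidableEq V] {G : SimpleGraph V} (w : ℕ) : ∀ (m : ℕ) (N : Type)
    [Fintype N] [DecidableEq N] (T : SimpleGraph N) (bag : N → Finset V) (S : Finset V)
    (I : Finset N) (F : N → (V → ZMod 2) → Set (V → ZMod 2)) (𝓛 : Set (Set (V → ZMod 2)))
    (n : ℕ), Fintype.card N ≤ m → St G w T bag S I F 𝓛 → Reach n 𝓛 →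
    Reach (n + 2 ^ (w + 1) * (4 * S.card + I.card + 2)) {Psi G S F} := by
  intro m
  induction m with
  | zero =>
    intro N _ _ T bag S I F 𝓛 n hc h hr
    exact (dp_base (by omega) h hr).mono (by gcongr; omega) subset_rfl
  | succ m ih =>
    intro N _ _ T bag S I F 𝓛 n hc h hr
    rcases Nat.lt_or_ge 1 (Fintype.card N) with hcard | hcard
    swap
    · exact (dp_base hcard h hr).mono (by gcongr; omega) subset_rfl
    obtain ⟨l, j, hlj, hu, hT⟩ := exists_leaf h.tree hcard
    have hjl : j ≠ l := fun h => T.ne_of_adj hlj h.symm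
    have hcN : Fintype.card (({l}ᶜ : Set N) : Type) ≤ m := by
      have : Fintype.card (({l}ᶜ : Set N) : Type) < Fintype.card N :=
        Fintype.card_subtype_lt (x := l) (by simp)
      omega
    by_cases hsub : bag l ⊆ bag j
    · -- redundant leaf
      have hR : S \ (bag l \ bag j) = S := by
        rw [Finset.sdiff_eq_empty_iff_subset.mpr hsub, Finset.sdiff_empty]
      have hB : ∀ α β, (∀ v ∈ bag j, α v = β v) → F l α = F l β :=
        fun α β h' => h.loc l α β (fun v hv => h' v (hsub hv))
      rw [psi_remove_redundant hjl]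
      by_cases hl : l ∈ I
      · by_cases hj : j ∈ I
        · -- merge two factors
          have r1 := hr.add (fun c : bag j → ZMod 2 => sums (F j) (F l) (ext (bag j) c))
            (fun c => good_sums (h.mem j _) (h.mem l _))
          have hst := st_remove h hlj hu hT (F l) hB
            (Finset.univ.filter fun i => (i : N) ∈ I) (by
              rintro ⟨i, hi⟩ hiI α
              have hiI' : i ∉ I := by simpa using hiI
              have hij : i ≠ j := fun h => hiI' (h ▸ hj)
              unfold newF
              simp only [hij, if_false]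
              exact h.triv i hiI' α)
            (𝓛' := 𝓛 ∪ Set.range fun c : bag j → ZMod 2 => sums (F j) (F l) (ext (bag j) c))
            Set.subset_union_left (by
              intro α
              refine Or.inr ⟨fun i => α i, ?_⟩
              simp only
              unfold sums
              rw [h.loc j _ α (fun v hv => ext_apply (bag j) α hv),
                hB _ α (fun v hv => ext_apply (bag j) α hv)])
          rw [hR] at hst
          have r2 := ih _ _ _ _ _ _ _ _ hcN hst r1
          refine r2.mono ?_ subset_rfl
          have e1 := card_fun_le (h.size j)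
          have e2 := card_filter_sub l I (fun i => (i : N) ∈ I) (fun i hi => hi)
          have e3 := Finset.card_erase_of_mem hl
          have e4 : 1 ≤ I.card := Finset.card_pos.mpr ⟨l, hl⟩
          calc n + Fintype.card (bag j → ZMod 2) + 2 ^ (w + 1) *
              (4 * S.card + (Finset.univ.filter fun i : (({l}ᶜ : Set N) : Type) =>
                (i : N) ∈ I).card + 2)
              ≤ n + 2 ^ (w + 1) + 2 ^ (w + 1) * (4 * S.card + (I.card - 1) + 2) := by
                gcongr
                omega
            _ = n + 2 ^ (w + 1) * (4 * S.card + (I.card - 1 + 1) + 2) := by ring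
            _ = n + 2 ^ (w + 1) * (4 * S.card + I.card + 2) := by
                rw [Nat.sub_add_cancel e4]
        · -- the factor of `l` moves to `j`
          have hst := st_remove h hlj hu hT (F l) hB
            (Finset.univ.filter fun i => (i : N) ∈ I ∨ (i : N) = j) (by
              rintro ⟨i, hi⟩ hiI α
              have hiI' : i ∉ I ∧ i ≠ j := by simpa using hiI
              unfold newF
              simp only [hiI'.2, if_false]
              exact h.triv i hiI'.1 α) subset_rfl (by
              intro α
              have : sums (F j) (F l) α = F l α := by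
                unfold sums
                rw [h.triv j hj]
                ext z
                constructor
                · rintro ⟨a, ha, b, hb, rfl⟩
                  rw [Set.mem_singleton_iff] at ha
                  rw [ha, zero_add]
                  exact hb
                · intro hz
                  exact ⟨0, rfl, z, hz, (zero_add z).symm⟩
              rw [this]
              exact h.mem l α)
          rw [hR] at hst
          have r2 := ih _ _ _ _ _ _ _ _ hcN hst hr
          refine r2.mono ?_ subset_rfl
          have e2 := card_filter_sub l (insert j I) (fun i => (i : N) ∈ I ∨ (i : N) = j)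
            (fun i hi => by
              rw [Finset.mem_insert]
              exact hi.symm)
          have e3 := Finset.card_erase_of_mem (Finset.mem_insert_of_mem (b := j) hl)
          have e4 := Finset.card_insert_le j I
          gcongr
          omega
      · -- the factor of `l` is trivial
        have hst := st_remove h hlj hu hT (F l) hB
            (Finset.univ.filter fun i => (i : N) ∈ I) (by
              rintro ⟨i, hi⟩ hiI α
              have hiI' : i ∉ I := by simpa using hiI
              unfold newF
              by_cases hij : i = j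
              · subst hij
                simp only [if_true]
                unfold sums
                rw [h.triv i hiI', h.triv l hl]
                ext z
                constructor
                · rintro ⟨a, ha, b, hb, rfl⟩
                  rw [Set.mem_singleton_iff] at ha hb ⊢
                  rw [ha, hb, zero_add]
                · intro hz
                  rw [Set.mem_singleton_iff] at hz
                  exact ⟨0, rfl, 0, rfl, by rw [hz, zero_add]⟩
              · simp only [hij, if_false]
                exact h.triv i hiI' α) subset_rfl (by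
              intro α
              have : sums (F j) (F l) α = F j α := by
                unfold sums
                rw [h.triv l hl]
                ext z
                constructor
                · rintro ⟨a, ha, b, hb, rfl⟩
                  rw [Set.mem_singleton_iff] at hb
                  rw [hb, add_zero]
                  exact ha
                · intro hz
                  exact ⟨z, hz, 0, rfl, (add_zero z).symm⟩
              rw [this]
              exact h.mem j α)
        rw [hR] at hst
        have r2 := ih _ _ _ _ _ _ _ _ hcN hst hr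
        refine r2.mono ?_ subset_rfl
        have e2 := card_filter_sub l I (fun i => (i : N) ∈ I) (fun i hi => hi)
        have e3 := Finset.card_erase_le (s := I) (a := l)
        gcongr
        omega
    · -- a proper leaf
      rw [psi_remove h hlj hu]
      have hP : ∀ γ : V → ZMod 2, res (bag l \ bag j) γ =
          res (bag l \ bag j) (ext (bag l) (fun i => γ i)) := by
        intro γ
        funext v
        unfold res
        by_cases hv : v ∈ bag l \ bag j
        · rw [if_pos hv, if_pos hv, ext_apply _ _ (Finset.mem_sdiff.mp hv).1]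
        · rw [if_neg hv, if_neg hv]
      have r1 := hr.add (fun c : bag l → ZMod 2 =>
        ({res (bag l \ bag j) (ext (bag l) c)} : Set (V → ZMod 2)))
        (fun c => Or.inl (isAffine_singleton _))
      have r2 := r1.add (fun c : bag j → ZMod 2 => msg G (bag l) (bag j) (F l) (ext (bag j) c))
        (fun c => good_msg (fun γ => Or.inl (h.mem l γ))
          (fun γ => Or.inr ⟨fun i => γ i, by simp only; rw [← hP γ]⟩) _)
      have r3 := r2.add (fun c : bag j → ZMod 2 =>
        sums (F j) (msg G (bag l) (bag j) (F l)) (ext (bag j) c))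
        (fun c => good_sums (Or.inl (Or.inl (h.mem j _))) (Or.inr ⟨c, rfl⟩))
      have hst := st_remove h hlj hu hT (msg G (bag l) (bag j) (F l))
        (fun α β h' => msg_congr h')
        (Finset.univ.filter fun i => (i : N) ∈ I ∨ (i : N) = j) (by
          rintro ⟨i, hi⟩ hiI α
          have hiI' : i ∉ I ∧ i ≠ j := by simpa using hiI
          unfold newF
          simp only [hiI'.2, if_false]
          exact h.triv i hiI'.1 α)
        (𝓛' := (((𝓛 ∪ Set.range fun c : bag l → ZMod 2 =>
          ({res (bag l \ bag j) (ext (bag l) c)} : Set (V → ZMod 2))) ∪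
          Set.range fun c : bag j → ZMod 2 => msg G (bag l) (bag j) (F l) (ext (bag j) c)) ∪
          Set.range fun c : bag j → ZMod 2 =>
            sums (F j) (msg G (bag l) (bag j) (F l)) (ext (bag j) c)))
        (fun T hT => Or.inl (Or.inl (Or.inl hT))) (by
          intro α
          refine Or.inr ⟨fun i => α i, ?_⟩
          simp only
          unfold sums
          rw [h.loc j _ α (fun v hv => ext_apply (bag j) α hv),
            msg_congr (fun v hv => ext_apply (bag j) α hv)])
      have r4 := ih _ _ _ _ _ _ _ _ hcN hst r3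
      refine r4.mono ?_ subset_rfl
      have e1 := card_fun_le (h.size j)
      have e1' := card_fun_le (h.size l)
      have e2 := card_filter_sub l (insert j I) (fun i => (i : N) ∈ I ∨ (i : N) = j)
        (fun i hi => by
          rw [Finset.mem_insert]
          exact hi.symm)
      have e3 := Finset.card_erase_le (s := insert j I) (a := l)
      have e4 := Finset.card_insert_le j I
      have e5 : (S \ (bag l \ bag j)).card < S.card := by
        apply Finset.card_lt_card
        rw [Finset.ssubset_iff_of_subset Finset.sdiff_subset]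
        rw [Finset.not_subset] at hsub
        obtain ⟨v, hv1, hv2⟩ := hsub
        exact ⟨v, h.sub l hv1, by simp [hv1, hv2]⟩
      calc n + Fintype.card (bag l → ZMod 2) + Fintype.card (bag j → ZMod 2) +
            Fintype.card (bag j → ZMod 2) + 2 ^ (w + 1) * (4 * (S \ (bag l \ bag j)).card +
            (Finset.univ.filter fun i : (({l}ᶜ : Set N) : Type) =>
              (i : N) ∈ I ∨ (i : N) = j).card + 2)
          ≤ n + 2 ^ (w + 1) + 2 ^ (w + 1) + 2 ^ (w + 1) + 2 ^ (w + 1) * (4 * (S.card - 1) +
              (I.card + 1) + 2) := by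
            gcongr
            · omega
            · omega
        _ = n + 2 ^ (w + 1) * (4 * (S.card - 1 + 1) + I.card + 2) := by ring
        _ = n + 2 ^ (w + 1) * (4 * S.card + I.card + 2) := by
            rw [Nat.sub_add_cancel (by omega)]

end Pool.Agent.Helper34.XTW
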