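import Pool.Agent.Helper34.XTW.Switch
import Pool.Agent.Helper91.Dich.Defs

/-!
# Local patches of vertex covers; every pattern on a large set is unlikely
-/

set_option autoImplicit false

namespace Pool.Agent.Helper34.XTW

open Finset Pool.Agent.Dichotomy

variable {V : Type*}

/-- The closed neighbourhood of a vertex. -/
noncomputable def cl [Fintype V] (G : SimpleGraph V) (v : V) : Finset V := by
  classical exact Finset.univ.filter fun w => w = v ∨ G.Adj v w

theorem mem_cl [Fintype V] {G : SimpleGraph V} {v w : V} : w ∈ cl G v ↔ w = v ∨ G.Adj v w := by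
  classical
  unfold cl
  simp

theorem mem_cl_comm [Fintype V] {G : SimpleGraph V} {v w : V} : w ∈ cl G v ↔ v ∈ cl G w := by
  rw [mem_cl, mem_cl, G.adj_comm, eq_comm]

theorem card_cl_le [Fintype V] {G : SimpleGraph V} {D : ℕ}
    (hD : ∀ v, (G.neighborSet v).ncard ≤ D) (v : V) : (cl G v).card ≤ D + 1 := by
  classical
  have h : cl G v = insert v (G.neighborSet v).toFinset := by
    ext w
    rw [mem_cl, mem_insert, Set.mem_toFinset, SimpleGraph.mem_neighborSet]
  rw [h]
  refine (card_insert_le _ _).trans ?_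
  rw [← Set.ncard_eq_toFinset_card']
  exact Nat.succ_le_succ (hD v)

/-- Greedy choice of far apart items. -/
theorem exists_far {ι : Type*} [Fintype V] [DecidableEq V] [DecidableEq ι] (I : Finset ι)
    (core nb : ι → Finset V) (hsymm : ∀ i ∈ I, ∀ j ∈ I, Disjoint (core i) (nb j) →
      Disjoint (core j) (nb i)) :
    ∃ M ⊆ I, (∀ i ∈ M, ∀ j ∈ M, i ≠ j → Disjoint (core i) (nb j)) ∧
      ∀ i ∈ I, ∃ j ∈ M, i = j ∨ ¬ Disjoint (core i) (nb j) := by
  classical
  obtain ⟨F, hF⟩ : ∃ F : Finset (Finset ι), ∀ M, M ∈ F ↔ M ⊆ I ∧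
      ∀ i ∈ M, ∀ j ∈ M, i ≠ j → Disjoint (core i) (nb j) :=
    ⟨I.powerset.filter fun M => ∀ i ∈ M, ∀ j ∈ M, i ≠ j → Disjoint (core i) (nb j), by
      intro M; rw [mem_filter, mem_powerset]⟩
  obtain ⟨M, hM⟩ := Finset.exists_maximal (s := F) ⟨∅, by rw [hF]; simp⟩
  have hM0 : M ∈ F := hM.1
  have hM1 := (hF M).mp hM0
  refine ⟨M, hM1.1, hM1.2, ?_⟩
  intro i hi
  by_contra hcon
  push Not at hcon
  have hiM : i ∉ M := fun h => (hcon i h).1 rfl
  have h2 : insert i M ∈ F := by
    rw [hF]
    refine ⟨Finset.insert_subset hi hM1.1, ?_⟩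
    intro a ha b hb hab
    rw [mem_insert] at ha hb
    rcases ha with rfl | ha
    · rcases hb with rfl | hb
      · exact absurd rfl hab
      · exact (hcon b hb).2
    · rcases hb with rfl | hb
      · exact hsymm _ hi _ (hM1.1 ha) (hcon a ha).2
      · exact hM1.2 a ha b hb hab
  have h3 := hM.2 h2 (Finset.subset_insert _ _)
  exact hiM (h3 (mem_insert_self _ _))

/-- Changing a vertex cover at `u`: all neighbours of `u` are put into the cover. -/
theorem patch_one [Fintype V] [DecidableEq V] {G : SimpleGraph V} {x : V → ZMod 2}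
    (hx : x ∈ VC G) (u : V) (c : ZMod 2) :
    (fun v => if v = u then c else if v ∈ cl G u then 1 else x v) ∈ VC G := by
  intro a b hab
  by_cases ha : a = u
  · subst ha
    right
    have hb : b ≠ a := fun h => G.ne_of_adj hab h.symm
    simp only [hb, if_false]
    rw [if_pos (mem_cl.mpr (Or.inr hab))]
  · by_cases hb : b = u
    · subst hb
      left
      simp only [ha, if_false]
      rw [if_pos (mem_cl.mpr (Or.inr hab.symm))]
    · simp only [ha, hb, if_false]
      by_cases ha' : a ∈ cl G u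
      · left; rw [if_pos ha']
      · by_cases hb' : b ∈ cl G u
        · right; rw [if_pos hb']
        · rw [if_neg ha', if_neg hb']
          exact hx a b hab

/-- Every pattern on `X` is unlikely. -/
theorem entropy [Fintype V] [DecidableEq V] (G : SimpleGraph V) (D : ℕ)
    (hD : ∀ v, (G.neighborSet v).ncard ≤ D) (X : Finset V) (p : V → ZMod 2) :
    (({x ∈ VC G | ∀ i ∈ X, x i = p i} : Set (V → ZMod 2)).ncard : ℝ) ≤
      (2 ^ (D + 1) / (2 ^ (D + 1) + 1)) ^ (X.card / (D + 1)) * (VC G).ncard := by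
  classical
  obtain ⟨M, hMX, hM1, hM2⟩ := exists_far X (fun v : V => ({v} : Finset V)) (fun v => cl G v) (by
    intro i _ j _ h
    rw [Finset.disjoint_singleton_left] at h ⊢
    rwa [mem_cl_comm])
  have hcard : X.card ≤ M.card * (D + 1) := by
    have h1 : X ⊆ M.biUnion fun j => cl G j := by
      intro i hi
      obtain ⟨j, hj, h⟩ := hM2 i hi
      rw [mem_biUnion]
      refine ⟨j, hj, ?_⟩
      rcases h with rfl | h
      · exact mem_cl.mpr (Or.inl rfl)
      · rw [Finset.disjoint_singleton_left, not_not] at h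
        exact h
    refine (card_le_card h1).trans (card_biUnion_le.trans ?_)
    refine (Finset.sum_le_card_nsmul _ _ _ (fun j _ => card_cl_le hD j)).trans ?_
    exact le_of_eq (smul_eq_mul _ _)
  have hM3 : X.card / (D + 1) ≤ M.card := by
    rw [Nat.div_le_iff_le_mul_add_pred (by omega)]
    rw [mul_comm]
    omega
  have h1 := switch (VC G) M (fun v : V => ({v} : Finset V)) (fun v => cl G v)
    (fun v x => x v = p v) (D + 1) hM1 (by
      intro i _ x y hxy hx
      rw [hxy i (mem_singleton_self _)]; exact hx) (fun i _ => card_cl_le hD i) (by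
      intro i _ x hx
      refine ⟨_, patch_one hx i (p i + 1), ?_, ?_⟩
      · intro v hv
        have hvi : v ≠ i := fun h => hv (mem_cl.mpr (Or.inl h))
        simp only [hvi, if_false]
        rw [if_neg hv]
      · simp)
  have h2 : (({x ∈ VC G | ∀ i ∈ X, x i = p i} : Set (V → ZMod 2)).ncard : ℝ) ≤
      (({x ∈ VC G | ∀ i ∈ M, x i = p i} : Set (V → ZMod 2)).ncard : ℝ) := by
    have h3 : ({x ∈ VC G | ∀ i ∈ X, x i = p i} : Set (V → ZMod 2)) ⊆
        ({x ∈ VC G | ∀ i ∈ M, x i = p i} : Set (V → ZMod 2)) :=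
      fun x hx => ⟨hx.1, fun i hi => hx.2 i (hMX hi)⟩
    exact_mod_cast Set.ncard_le_ncard h3 (Set.toFinite _)
  refine h2.trans (h1.trans ?_)
  refine mul_le_mul_of_nonneg_right ?_ (Nat.cast_nonneg _)
  apply pow_le_pow_of_le_one (by positivity) _ hM3
  rw [div_le_one (by positivity)]
  linarith

end Pool.Agent.Helper34.XTW
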