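import Mathlib

/-!
# Removing a leaf of a tree
-/

set_option autoImplicit false

namespace Pool.Agent.Helper34.XTW

open SimpleGraph

variable {N : Type}

theorem exists_leaf [Fintype N] [DecidableEq N] {T : SimpleGraph N} (hT : T.IsTree)
    (hc : 1 < Fintype.card N) :
    ∃ l j : N, T.Adj l j ∧ (∀ i, T.Adj l i → i = j) ∧ (T.induce ({l}ᶜ : Set N)).IsTree := by
  classical
  have : Nontrivial N := Fintype.one_lt_card_iff_nontrivial.mp hc
  obtain ⟨l, hl⟩ := hT.exists_vert_degree_one_of_nontrivial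
  obtain ⟨j, hj, hu⟩ := degree_eq_one_iff_existsUnique_adj.mp hl
  exact ⟨l, j, hj, fun i hi => hu i hi,
    ⟨hT.connected.induce_compl_singleton_of_degree_eq_one hl, hT.isAcyclic.induce _⟩⟩

theorem nbr_mem {T : SimpleGraph N} {l j i : N} (hu : ∀ i, T.Adj l i → i = j) {A : Set N}
    (hA : (T.induce A).Connected) (hl : l ∈ A) (hi : i ∈ A) (hne : i ≠ l) : j ∈ A := by
  obtain ⟨p⟩ := hA.preconnected ⟨l, hl⟩ ⟨i, hi⟩
  cases p with
  | nil => exact absurd rfl hne
  | cons h p =>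
    rename_i w
    have h1 : T.Adj l w := h
    have h2 := hu _ h1
    rw [← h2]
    exact w.2

theorem conn_remove {T : SimpleGraph N} {l j i : N} (hu : ∀ i, T.Adj l i → i = j) {A : Set N}
    (hA : (T.induce A).Connected) (hi : i ∈ A) (hne : i ≠ l) :
    ((T.induce ({l}ᶜ : Set N)).induce {x : ({l}ᶜ : Set N) | (x : N) ∈ A}).Connected := by
  have h1 : ((T.induce A).induce {x : A | (x : N) ≠ l}).Preconnected := by
    apply hA.preconnected.induce_of_degree_eq_one
    intro v hv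
    have hv' : (v : N) = l := by
      by_contra h
      exact hv h
    intro a ha b hb
    have h2 : T.Adj (v : N) (a : N) := ha
    have h3 : T.Adj (v : N) (b : N) := hb
    rw [hv'] at h2 h3
    exact Subtype.ext ((hu _ h2).trans (hu _ h3).symm)
  let f : ((T.induce A).induce {x : A | (x : N) ≠ l}) →g
      ((T.induce ({l}ᶜ : Set N)).induce {x : ({l}ᶜ : Set N) | (x : N) ∈ A}) :=
    { toFun := fun x => ⟨⟨x.1.1, x.2⟩, x.1.2⟩
      map_rel' := fun {a b} h => h }
  have h2 := h1.map f (by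
    rintro ⟨⟨x, hx⟩, hxA⟩
    exact ⟨⟨⟨x, hxA⟩, hx⟩, rfl⟩)
  exact (connected_iff _).mpr ⟨h2, ⟨⟨⟨i, hne⟩, hi⟩⟩⟩

end Pool.Agent.Helper34.XTW
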