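import Pool.Agent.Helper97.Pendant.TreeDec

/-!
# Linked sets in graphs of large tree-width

`X` is `k`-linked in `G` if no separation of order less than `k` separates two subsets of `X` which
are larger than its order.  A graph without a `k`-linked set of `3 k` vertices has tree-width less
than `4 k` (Robertson–Seymour).
-/

set_option autoImplicit false

namespace Pool.Agent.Helper34.XTW

open SimpleGraph Pool.Agent.Helper97.Pendant

variable {V : Type}

/-- `X` is `k`-linked in `G`. -/
def Linked [Fintype V] [DecidableEq V] (G : SimpleGraph V) (X : Finset V) (k : ℕ) : Prop :=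
  ∀ P Q : Finset V, P ∪ Q = Finset.univ → (∀ u ∉ Q, ∀ v ∉ P, ¬ G.Adj u v) →
    k ≤ (P ∩ Q).card ∨ (X \ Q).card ≤ (P ∩ Q).card ∨ (X \ P).card ≤ (P ∩ Q).card

/-- Tree-decomposition of `G` restricted to `S` with bags of size at most `w + 1`, one of which
contains `B`. -/
def TDB (G : SimpleGraph V) (S B : Set V) (w : ℕ) : Prop :=
  ∃ (N : Type) (_ : Finite N) (T : SimpleGraph N) (bag : N → Set V), T.IsTree ∧
    (∀ i, bag i ⊆ S) ∧
    (∀ u ∈ S, ∀ v ∈ S, G.Adj u v → ∃ i, u ∈ bag i ∧ v ∈ bag i) ∧
    (∀ v ∈ S, (T.induce {i | v ∈ bag i}).Connected) ∧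
    (∀ i, (bag i).ncard ≤ w + 1) ∧ ∃ i, B ⊆ bag i

lemma TDB.td {G : SimpleGraph V} {S B : Set V} {w : ℕ} (h : TDB G S B w) : TD G S w := by
  obtain ⟨N, hN, T, bag, h1, h2, h3, h4, h5, -⟩ := h
  exact ⟨N, hN, T, bag, h1, h2, h3, h4, h5⟩

lemma TDB.mono {G : SimpleGraph V} {S B B' : Set V} {w : ℕ} (h : TDB G S B w) (hB : B' ⊆ B) :
    TDB G S B' w := by
  obtain ⟨N, hN, T, bag, h1, h2, h3, h4, h5, i, hi⟩ := h
  exact ⟨N, hN, T, bag, h1, h2, h3, h4, h5, i, hB.trans hi⟩

lemma tdb_single (G : SimpleGraph V) {S : Set V} {w : ℕ} (h : S.ncard ≤ w + 1) :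
    TDB G S S w := by
  refine ⟨Unit, inferInstance, ⊥, fun _ => S, IsTree.of_subsingleton, fun _ => subset_rfl,
    fun u hu v hv _ => ⟨(), hu, hv⟩, ?_, fun _ => h, (), subset_rfl⟩
  intro v hv
  have : Nonempty {i : Unit | v ∈ S} := ⟨⟨(), hv⟩⟩
  exact Connected.of_subsingleton

/-- Gluing: the first decomposition is attached to the second one, and the bag containing `B` of
the second one survives. -/
lemma tdb_glue {G : SimpleGraph V} {S1 S2 C1 B : Set V} {w : ℕ}
    (h1 : TDB G S1 C1 w) (h2 : TDB G S2 B w) (hcap1 : S1 ∩ S2 ⊆ C1) (hcap2 : S1 ∩ S2 ⊆ B)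
    (hE : ∀ u v, u ∈ S1 ∪ S2 → v ∈ S1 ∪ S2 → G.Adj u v →
      (u ∈ S1 ∧ v ∈ S1) ∨ (u ∈ S2 ∧ v ∈ S2)) : TDB G (S1 ∪ S2) B w := by
  obtain ⟨N1, hN1, T1, b1, hT1, hs1, he1, hc1, hw1, i1, hi1⟩ := h1
  obtain ⟨N2, hN2, T2, b2, hT2, hs2, he2, hc2, hw2, i2, hi2⟩ := h2
  refine ⟨N1 ⊕ N2, inferInstance, (T1 ⊕g T2) ⊔ edge (Sum.inl i1) (Sum.inr i2),
    fun i => match i with | Sum.inl a => b1 a | Sum.inr a => b2 a, isTree_glue hT1 hT2 i1 i2,
    ?_, ?_, ?_, ?_, Sum.inr i2, hi2⟩
  · rintro (i | i)
    · exact (hs1 i).trans Set.subset_union_left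
    · exact (hs2 i).trans Set.subset_union_right
  · intro u hu v hv huv
    rcases hE u v hu hv huv with ⟨h1, h2⟩ | ⟨h1, h2⟩
    · obtain ⟨i, h3, h4⟩ := he1 u h1 v h2 huv
      exact ⟨Sum.inl i, h3, h4⟩
    · obtain ⟨i, h3, h4⟩ := he2 u h1 v h2 huv
      exact ⟨Sum.inr i, h3, h4⟩
  · intro v hv
    have hl : ∀ a b, T1.Adj a b →
        ((T1 ⊕g T2) ⊔ edge (Sum.inl i1) (Sum.inr i2)).Adj (Sum.inl a) (Sum.inl b) := by
      intro a b hab
      exact Or.inl hab
    have hr : ∀ a b, T2.Adj a b →
        ((T1 ⊕g T2) ⊔ edge (Sum.inl i1) (Sum.inr i2)).Adj (Sum.inr a) (Sum.inr b) := by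
      intro a b hab
      exact Or.inl hab
    have hset : {i : N1 ⊕ N2 | v ∈ (match i with | Sum.inl a => b1 a | Sum.inr a => b2 a)} =
        Sum.inl '' {i | v ∈ b1 i} ∪ Sum.inr '' {i | v ∈ b2 i} := by
      ext (i | i)
      · simp
      · simp
    rw [hset]
    by_cases h1 : v ∈ S1
    · have c1 := conn_image_hom (T' := (T1 ⊕g T2) ⊔ edge (Sum.inl i1) (Sum.inr i2)) Sum.inl hl
        (hc1 v h1)
      by_cases h2 : v ∈ S2
      · have c2 := conn_image_hom (T' := (T1 ⊕g T2) ⊔ edge (Sum.inl i1) (Sum.inr i2)) Sum.inr hr
          (hc2 v h2)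
        refine connected_induce_union c1.preconnected c2.preconnected
          (v := Sum.inl i1) (w := Sum.inr i2) ⟨i1, hi1 (hcap1 ⟨h1, h2⟩), rfl⟩
          ⟨i2, hi2 (hcap2 ⟨h1, h2⟩), rfl⟩ ?_
        right
        simp [edge_adj]
      · have : Sum.inr '' {i | v ∈ b2 i} = (∅ : Set (N1 ⊕ N2)) := by
          rw [Set.image_eq_empty]
          ext i
          simp only [Set.mem_ofPred_eq, Set.mem_empty_iff_false, iff_false]
          exact fun h => h2 (hs2 i h)
        rw [this, Set.union_empty]
        exact c1
    · have h2 : v ∈ S2 := hv.resolve_left h1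
      have c2 := conn_image_hom (T' := (T1 ⊕g T2) ⊔ edge (Sum.inl i1) (Sum.inr i2)) Sum.inr hr
          (hc2 v h2)
      have : Sum.inl '' {i | v ∈ b1 i} = (∅ : Set (N1 ⊕ N2)) := by
        rw [Set.image_eq_empty]
        ext i
        simp only [Set.mem_ofPred_eq, Set.mem_empty_iff_false, iff_false]
        exact fun h => h1 (hs1 i h)
      rw [this, Set.empty_union]
      exact c2
  · rintro (i | i)
    · exact hw1 i
    · exact hw2 i

open Finset in
/-- The Robertson–Seymour recursion. -/
theorem tdb_of_no_linked [Fintype V] [DecidableEq V] {G : SimpleGraph V} {k : ℕ} (hk : 1 ≤ k)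
    (hno : ∀ X : Finset V, X.card = 3 * k → ¬ Linked G X k) :
    ∀ (m : ℕ) (R B : Finset V), R.card + (R \ B).card ≤ m → B ⊆ R → B.card ≤ 3 * k →
      TDB G (R : Set V) (B : Set V) (4 * k - 1) := by
  intro m
  induction m with
  | zero =>
    intro R B hm hBR hB
    have hR : R = ∅ := by
      rw [← Finset.card_eq_zero]; omega
    subst hR
    have hB0 : B = ∅ := Finset.subset_empty.mp hBR
    subst hB0
    exact tdb_single G (by simp)
  | succ m ih =>
    intro R B hm hBR hB
    by_cases hRB : R ⊆ B
    · have : B = R := Finset.Subset.antisymm hBR hRB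
      subst this
      refine tdb_single G ?_
      rw [Set.ncard_coe_finset]
      omega
    rw [Finset.not_subset] at hRB
    obtain ⟨v, hvR, hvB⟩ := hRB
    rcases Nat.lt_or_ge B.card (3 * k) with hlt | hge
    · have h1 : TDB G (R : Set V) ((insert v B : Finset V) : Set V) (4 * k - 1) := by
        apply ih R (insert v B)
        · have h2 : R \ insert v B ⊂ R \ B := by
            rw [Finset.ssubset_iff_of_subset
              (Finset.sdiff_subset_sdiff (Finset.Subset.refl _) (Finset.subset_insert _ _))]
            exact ⟨v, by simp [hvR, hvB], by simp⟩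
          have h3 := Finset.card_lt_card h2
          omega
        · exact Finset.insert_subset hvR hBR
        · rw [Finset.card_insert_of_notMem hvB]; omega
      exact h1.mono (by simp)
    · have hcard : B.card = 3 * k := le_antisymm hB hge
      have hnl := hno B hcard
      unfold Linked at hnl
      push Not at hnl
      obtain ⟨P, Q, hPQ, hE, h1, h2, h3⟩ := hnl
      set S := P ∩ Q with hS
      have hSR : ∀ x, x ∈ P ∨ x ∈ Q := by
        intro x
        have : x ∈ P ∪ Q := by rw [hPQ]; exact Finset.mem_univ _
        exact Finset.mem_union.mp this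
      -- sizes of the new boundaries
      have key : ∀ P' Q' : Finset V, P' ∩ Q' = S → (B \ P').card > S.card →
          ((B ∩ P') ∪ (S ∩ R)).card ≤ 3 * k := by
        intro P' Q' hPQ' hgt
        have e1 : (B ∩ P').card + (B \ P').card = B.card := by
          rw [add_comm]; exact Finset.card_sdiff_add_card_inter _ _
        have e2 := Finset.card_union_le (B ∩ P') (S ∩ R)
        have e3 : (S ∩ R).card ≤ S.card := Finset.card_le_card Finset.inter_subset_left
        omega
      have hsmall : ∀ P' : Finset V, S ⊆ P' → (B \ P').card > S.card →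
          (R ∩ P').card + ((R ∩ P') \ ((B ∩ P') ∪ (S ∩ R))).card ≤ m := by
        intro P' hSP hgt
        have e1 : (R ∩ P').card < R.card := by
          apply Finset.card_lt_card
          rw [Finset.ssubset_iff_of_subset Finset.inter_subset_left]
          have : 0 < (B \ P').card := by omega
          obtain ⟨x, hx⟩ := Finset.card_pos.mp this
          rw [Finset.mem_sdiff] at hx
          exact ⟨x, hBR hx.1, by simp [hx.2]⟩
        have e2 : ((R ∩ P') \ ((B ∩ P') ∪ (S ∩ R))).card ≤ (R \ B).card := by
          apply Finset.card_le_card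
          intro x hx
          simp only [Finset.mem_sdiff, Finset.mem_inter, Finset.mem_union, not_or, not_and] at hx ⊢
          exact ⟨hx.1.1, fun hb => hx.2.1 hb hx.1.2⟩
        omega
      have T1 := ih (R ∩ P) ((B ∩ P) ∪ (S ∩ R)) (hsmall P Finset.inter_subset_left h3)
        (by
          intro x hx
          simp only [hS, Finset.mem_inter, Finset.mem_union] at hx ⊢
          rcases hx with hx | hx
          · exact ⟨hBR hx.1, hx.2⟩
          · exact ⟨hx.2, hx.1.1⟩)
        (key P Q rfl h3)
      have T2 := ih (R ∩ Q) ((B ∩ Q) ∪ (S ∩ R)) (hsmall Q Finset.inter_subset_right h2)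
        (by
          intro x hx
          simp only [hS, Finset.mem_inter, Finset.mem_union] at hx ⊢
          rcases hx with hx | hx
          · exact ⟨hBR hx.1, hx.2⟩
          · exact ⟨hx.2, hx.1.2⟩)
        (key Q P (Finset.inter_comm _ _) h2)
      -- the central bag
      have T0 : TDB G ((B ∪ (S ∩ R) : Finset V) : Set V) ((B ∪ (S ∩ R) : Finset V) : Set V)
          (4 * k - 1) := by
        apply tdb_single
        rw [Set.ncard_coe_finset]
        have e1 := Finset.card_union_le B (S ∩ R)
        have e2 : (S ∩ R).card ≤ S.card := Finset.card_le_card Finset.inter_subset_left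
        omega
      have G1 := tdb_glue T1 T0
        (by
          intro x hx
          simp only [hS, Set.mem_inter_iff, Finset.mem_coe, Finset.mem_inter,
            Finset.mem_union] at hx ⊢
          tauto)
        (by
          intro x hx
          exact hx.2)
        (by
          intro u v hu hv huv
          have memR : ∀ x, x ∈ ((R ∩ P : Finset V) : Set V) ∪ ((B ∪ (S ∩ R) : Finset V) : Set V) →
              x ∈ R := by
            intro x hx
            simp only [Set.mem_union, Finset.mem_coe, Finset.mem_inter, Finset.mem_union] at hx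
            rcases hx with hx | hx | hx
            · exact hx.1
            · exact hBR hx
            · exact hx.2
          have memP : ∀ x, x ∈ R → x ∈ P → x ∈ ((R ∩ P : Finset V) : Set V) := by
            intro x h1 h2
            exact Finset.mem_coe.mpr (Finset.mem_inter.mpr ⟨h1, h2⟩)
          have memS : ∀ x, x ∈ R → x ∈ P → x ∈ Q → x ∈ ((B ∪ (S ∩ R) : Finset V) : Set V) := by
            intro x h1 h2 h3
            exact Finset.mem_coe.mpr (Finset.mem_union_right _ (Finset.mem_inter.mpr
              ⟨Finset.mem_inter.mpr ⟨h2, h3⟩, h1⟩))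
          have memB : ∀ x, x ∈ ((R ∩ P : Finset V) : Set V) ∪ ((B ∪ (S ∩ R) : Finset V) : Set V) →
              x ∉ P → x ∈ ((B ∪ (S ∩ R) : Finset V) : Set V) := by
            intro x hx hxP
            rcases hx with hx | hx
            · exact absurd (Finset.mem_inter.mp (Finset.mem_coe.mp hx)).2 hxP
            · exact hx
          by_cases huP : u ∈ P
          · by_cases hvP : v ∈ P
            · exact Or.inl ⟨memP u (memR u hu) huP, memP v (memR v hv) hvP⟩
            · have huQ : u ∈ Q := by
                by_contra hcon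
                exact hE u hcon v hvP huv
              exact Or.inr ⟨memS u (memR u hu) huP huQ, memB v hv hvP⟩
          · by_cases hvP : v ∈ P
            · have hvQ : v ∈ Q := by
                by_contra hcon
                exact hE v hcon u huP huv.symm
              exact Or.inr ⟨memB u hu huP, memS v (memR v hv) hvP hvQ⟩
            · exact Or.inr ⟨memB u hu huP, memB v hv hvP⟩)
      have G2 := tdb_glue T2 G1
        (by
          intro x hx
          simp only [hS, Set.mem_inter_iff, Set.mem_union, Finset.mem_coe, Finset.mem_inter,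
            Finset.mem_union] at hx ⊢
          tauto)
        (by
          intro x hx
          simp only [hS, Set.mem_inter_iff, Set.mem_union, Finset.mem_coe, Finset.mem_inter,
            Finset.mem_union] at hx ⊢
          tauto)
        (by
          intro u v hu hv huv
          have memR : ∀ x, x ∈ ((R ∩ Q : Finset V) : Set V) ∪ (((R ∩ P : Finset V) : Set V) ∪
              ((B ∪ (S ∩ R) : Finset V) : Set V)) → x ∈ R := by
            intro x hx
            simp only [Set.mem_union, Finset.mem_coe, Finset.mem_inter, Finset.mem_union] at hx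
            rcases hx with hx | hx | hx | hx
            · exact hx.1
            · exact hx.1
            · exact hBR hx
            · exact hx.2
          have memQ : ∀ x, x ∈ R → x ∈ Q → x ∈ ((R ∩ Q : Finset V) : Set V) := by
            intro x h1 h2
            exact Finset.mem_coe.mpr (Finset.mem_inter.mpr ⟨h1, h2⟩)
          have memP : ∀ x, x ∈ R → x ∈ P → x ∈ (((R ∩ P : Finset V) : Set V) ∪
              ((B ∪ (S ∩ R) : Finset V) : Set V)) := by
            intro x h1 h2
            exact Or.inl (Finset.mem_coe.mpr (Finset.mem_inter.mpr ⟨h1, h2⟩))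
          by_cases huQ : u ∈ Q
          · by_cases hvQ : v ∈ Q
            · exact Or.inl ⟨memQ u (memR u hu) huQ, memQ v (memR v hv) hvQ⟩
            · have hvP : v ∈ P := (hSR v).resolve_right hvQ
              have huP : u ∈ P := by
                by_contra hcon
                exact hE v hvQ u hcon huv.symm
              exact Or.inr ⟨memP u (memR u hu) huP, memP v (memR v hv) hvP⟩
          · have huP : u ∈ P := (hSR u).resolve_right huQ
            have hvP : v ∈ P := by
              by_contra hcon
              exact hE u huQ v hcon huv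
            exact Or.inr ⟨memP u (memR u hu) huP, memP v (memR v hv) hvP⟩)
      have hR : (((R ∩ Q : Finset V) : Set V) ∪ (((R ∩ P : Finset V) : Set V) ∪
          ((B ∪ (S ∩ R) : Finset V) : Set V))) = (R : Set V) := by
        ext x
        simp only [Set.mem_union, Finset.mem_coe, Finset.mem_inter, Finset.mem_union]
        have h7 := @hBR x
        have h9 := hSR x
        tauto
      rw [hR] at G2
      exact G2.mono (by simp)

/-- A graph of tree-width at least `4 k` contains a `k`-linked set with `3 k` vertices. -/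
theorem exists_linked [Fintype V] [DecidableEq V] {G : SimpleGraph V} {k : ℕ} (hk : 1 ≤ k)
    (hG : 4 * k ≤ treewidth G) : ∃ X : Finset V, X.card = 3 * k ∧ Linked G X k := by
  by_contra hcon
  push Not at hcon
  have h1 := tdb_of_no_linked hk hcon _ Finset.univ ∅ le_rfl (Finset.empty_subset _) (by simp)
  have h2 : HasTreeDecomposition G (4 * k - 1) := by
    rw [td_univ_iff]
    have := h1.td
    rwa [Finset.coe_univ] at this
  have h3 : ¬ HasTreeDecomposition G (4 * k - 1) := by
    rw [← succ_le_treewidth_iff]
    omega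
  exact h3 h2

end Pool.Agent.Helper34.XTW
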