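import Pool.Agent.Helper34.XTW.Linked

/-!
# Linked sets and two overlapping sets of vertices
-/

set_option autoImplicit false

namespace Pool.Agent.Helper34.XTW

open SimpleGraph

variable {V : Type}

/-- `v` is an endpoint of an edge which lies neither inside `F \ F'` nor inside `F' \ F`. -/
def BadEnd (G : SimpleGraph V) (F F' : Finset V) (v : V) : Prop :=
  ∃ w, G.Adj v w ∧ ¬ ((v ∈ F ∧ v ∉ F') ∧ (w ∈ F ∧ w ∉ F')) ∧
    ¬ ((v ∈ F' ∧ v ∉ F) ∧ (w ∈ F' ∧ w ∉ F))

open Classical in
/-- The endpoints of the edges which lie neither inside `F \ F'` nor inside `F' \ F`. -/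
noncomputable def badEnds [Fintype V] (G : SimpleGraph V) (F F' : Finset V) : Finset V :=
  Finset.univ.filter (BadEnd G F F')

lemma mem_badEnds [Fintype V] [DecidableEq V] {G : SimpleGraph V} {F F' : Finset V} {v : V} :
    v ∈ badEnds G F F' ↔ ∃ w, G.Adj v w ∧ ¬ (v ∈ F \ F' ∧ w ∈ F \ F') ∧
      ¬ (v ∈ F' \ F ∧ w ∈ F' \ F) := by
  have h : v ∈ badEnds G F F' ↔ BadEnd G F F' v := by
    classical
    unfold badEnds
    rw [Finset.mem_filter]
    simp
  rw [h]
  simp only [Finset.mem_sdiff]
  rfl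

/-- One half of the argument. -/
lemma half [Fintype V] [DecidableEq V] {G : SimpleGraph V} {X : Finset V} {k : ℕ}
    (hX : Linked G X k) (A S : Finset V) (hS : ∀ u ∈ A, ∀ v ∉ A, G.Adj u v → u ∈ S) :
    k ≤ S.card ∨ ((X ∩ A) \ S).card ≤ S.card ∨ ((X \ A) \ S).card ≤ S.card := by
  have hPQ : (A ∪ S) ∩ (Aᶜ ∪ S) = S := by
    ext x
    simp only [Finset.mem_inter, Finset.mem_union, Finset.mem_compl]
    tauto
  have hU : (A ∪ S) ∪ (Aᶜ ∪ S) = Finset.univ := by
    ext x
    simp only [Finset.mem_union, Finset.mem_compl, Finset.mem_univ, iff_true]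
    tauto
  have h := hX (A ∪ S) (Aᶜ ∪ S) hU (by
    intro u hu v hv huv
    simp only [Finset.mem_union, Finset.mem_compl, not_or, not_not] at hu hv
    exact hu.2 (hS u hu.1 v hv.1 huv))
  rw [hPQ] at h
  have e1 : X \ (Aᶜ ∪ S) = (X ∩ A) \ S := by
    ext x
    simp only [Finset.mem_sdiff, Finset.mem_union, Finset.mem_compl, not_or, not_not,
      Finset.mem_inter]
    tauto
  have e2 : X \ (A ∪ S) = (X \ A) \ S := by
    ext x
    simp only [Finset.mem_sdiff, Finset.mem_union, not_or]
    tauto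
  rw [e1, e2] at h
  exact h

/-- There are no isolated vertices in a linked set with at least two elements. -/
lemma not_isolated [Fintype V] [DecidableEq V] {G : SimpleGraph V} {X : Finset V} {k : ℕ}
    (hk : 1 ≤ k) (hX : Linked G X k) (hc : 2 ≤ X.card) {v : V} (hv : v ∈ X) :
    ∃ w, G.Adj v w := by
  by_contra hcon
  push Not at hcon
  have h := hX {v} {v}ᶜ (by simp) (by
    intro u hu w _ huw
    simp only [Finset.mem_compl, Finset.mem_singleton, not_not] at hu
    subst hu
    exact hcon w huw)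
  have e1 : ({v} ∩ {v}ᶜ : Finset V) = ∅ := by simp
  rw [e1, Finset.card_empty] at h
  rcases h with h | h | h
  · omega
  · have : v ∈ X \ {v}ᶜ := by simp [hv]
    have := Finset.card_pos.mpr ⟨v, this⟩
    omega
  · have h2 : X ⊆ {v} := by
      rw [Nat.le_zero, Finset.card_eq_zero, Finset.sdiff_eq_empty_iff_subset] at h
      exact h
    have := Finset.card_le_card h2
    simp at this
    omega

/-- If two sets of vertices both have at least `a` vertices in a linked set, many edges lie
neither in `F \ F'` nor in `F' \ F`. -/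
theorem star_of_linked [Fintype V] [DecidableEq V] {G : SimpleGraph V} {X : Finset V} {k a : ℕ}
    (hk : 1 ≤ k) (hX : Linked G X k) (hc : 2 ≤ X.card) (F F' : Finset V)
    (hF : a ≤ (F ∩ X).card) (hF' : a ≤ (F' ∩ X).card) :
    k ≤ (badEnds G F F').card ∨ a ≤ 2 * (badEnds G F F').card := by
  set S := badEnds G F F' with hSdef
  set A := F \ F' with hA
  set B := F' \ F with hB
  have hAB : ∀ x, x ∈ A → x ∉ B := by
    intro x hx hx'
    rw [hA, Finset.mem_sdiff] at hx
    rw [hB, Finset.mem_sdiff] at hx'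
    exact hx'.2 hx.1
  have hSA : ∀ u ∈ A, ∀ v ∉ A, G.Adj u v → u ∈ S := by
    intro u hu v hv huv
    rw [hSdef, mem_badEnds]
    exact ⟨v, huv, fun h => hv h.2, fun h => hAB u hu h.1⟩
  have hSB : ∀ u ∈ B, ∀ v ∉ B, G.Adj u v → u ∈ S := by
    intro u hu v hv huv
    rw [hSdef, mem_badEnds]
    exact ⟨v, huv, fun h => hAB u h.1 hu, fun h => hv h.2⟩
  have hrest : ∀ x ∈ X, x ∉ A → x ∉ B → x ∈ S := by
    intro x hx h1 h2
    obtain ⟨w, hw⟩ := not_isolated hk hX hc hx
    rw [hSdef, mem_badEnds]
    exact ⟨w, hw, fun h => h1 h.1, fun h => h2 h.1⟩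
  -- if most of `X` lies outside `A` up to `S`
  have hout : ∀ (A' F'' : Finset V), a ≤ (F'' ∩ X).card → Disjoint F'' A' →
      ((X \ A') \ S).card ≤ S.card → a ≤ 2 * S.card := by
    intro A' F'' h1 h2 h3
    have h4 : F'' ∩ X ⊆ ((X \ A') \ S) ∪ S := by
      intro x hx
      rw [Finset.mem_inter] at hx
      rw [Finset.mem_union, Finset.mem_sdiff, Finset.mem_sdiff]
      by_cases hxS : x ∈ S
      · exact Or.inr hxS
      · exact Or.inl ⟨⟨hx.2, Finset.disjoint_left.mp h2 hx.1⟩, hxS⟩
    have h5 := (Finset.card_le_card h4).trans (Finset.card_union_le _ _)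
    omega
  rcases half hX A S hSA with h | h | h
  · exact Or.inl h
  · rcases half hX B S hSB with h' | h' | h'
    · exact Or.inl h'
    · right
      -- both `X ∩ A \ S` and `X ∩ B \ S` are small
      have h4 : F ∩ X ⊆ ((X ∩ A) \ S) ∪ S := by
        intro x hx
        rw [Finset.mem_inter] at hx
        rw [Finset.mem_union, Finset.mem_sdiff, Finset.mem_inter]
        by_cases hxS : x ∈ S
        · exact Or.inr hxS
        · by_cases hxA : x ∈ A
          · exact Or.inl ⟨⟨hx.2, hxA⟩, hxS⟩
          · exfalso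
            apply hxS
            apply hrest x hx.2 hxA
            rw [hB, Finset.mem_sdiff]
            exact fun h => h.2 hx.1
      have h5 := (Finset.card_le_card h4).trans (Finset.card_union_le _ _)
      omega
    · right
      refine hout B F hF ?_ h'
      rw [hB]
      exact Finset.disjoint_sdiff
  · right
    refine hout A F' hF' ?_ h
    rw [hA]
    exact Finset.disjoint_sdiff

end Pool.Agent.Helper34.XTW
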