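import Pool.Agent.Helper34.XTW.Star
import Pool.Agent.Helper91.Dich.Defs

/-!
# Graphs of large tree-width satisfy `Star`
-/

set_option autoImplicit false

namespace Pool.Agent.Helper34.XTW

open Pool.Agent.Dichotomy Pool.Agent.Helper97.Pendant

variable {V : Type}

theorem star_linked [Fintype V] [DecidableEq V] {G : SimpleGraph V} {X : Finset V} {k : ℕ}
    (hk : 1 ≤ k) (hX : Linked G X k) (hc : 2 ≤ X.card) (a : ℕ) :
    Star G X a (min k ((a + 1) / 2)) := by
  classical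
  intro F F' hF hF'
  obtain ⟨A, hA⟩ : ∃ A : Finset V, (A : Set V) = F := ⟨F.toFinset, Set.coe_toFinset _⟩
  obtain ⟨A', hA'⟩ : ∃ A : Finset V, (A : Set V) = F' := ⟨F'.toFinset, Set.coe_toFinset _⟩
  subst hA hA'
  rw [← Finset.coe_inter, Set.ncard_coe_finset] at hF hF'
  have h := star_of_linked hk hX hc A A' hF hF'
  have e : {u | ∃ v, G.Adj u v ∧ ¬ ((u ∈ (A : Set V) ∧ u ∉ (A' : Set V)) ∧
      (v ∈ (A : Set V) ∧ v ∉ (A' : Set V))) ∧
      ¬ ((u ∈ (A' : Set V) ∧ u ∉ (A : Set V)) ∧ (v ∈ (A' : Set V) ∧ v ∉ (A : Set V)))} =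
      ((badEnds G A A' : Finset V) : Set V) := by
    ext u
    rw [Finset.mem_coe, mem_badEnds]
    simp only [Set.mem_ofPred_eq, Finset.mem_coe, Finset.mem_sdiff]
  rw [e, Set.ncard_coe_finset]
  omega

/-- In a graph of tree-width at least `4 k` there is a set `X` of `3 k` vertices with `Star`. -/
theorem exists_star [Fintype V] [DecidableEq V] {G : SimpleGraph V} {k : ℕ} (hk : 1 ≤ k)
    (hG : 4 * k ≤ treewidth G) :
    ∃ X : Finset V, X.card = 3 * k ∧ ∀ a, Star G X a (min k ((a + 1) / 2)) := by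
  obtain ⟨X, h1, h2⟩ := exists_linked hk hG
  exact ⟨X, h1, fun a => star_linked hk h2 (by omega) a⟩

end Pool.Agent.Helper34.XTW
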