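import Pool.Agent.Helper34.XTW.Entropy

/-!
# Sumsets inside the vertex covers of a graph
-/

set_option autoImplicit false

namespace Pool.Agent.Helper34.XTW

open Finset Pool.Agent.Dichotomy

variable {V : Type*}

/-- The coordinates which are not constant on `U`. -/
def free (U : Set (V → ZMod 2)) : Set V := {v | ∃ x ∈ U, ∃ y ∈ U, x v ≠ y v}

theorem le_free_of_pat [Fintype V] [DecidableEq V] {X : Finset V} {U : Set (V → ZMod 2)} {a : ℕ}
    (h : 2 ^ a ≤ pat X U) : a ≤ (free U ∩ X).ncard := by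
  classical
  set Y : Finset V := X.filter (· ∈ free U) with hY
  have hYX : (free U ∩ X).ncard = Y.card := by
    rw [← Set.ncard_coe_finset]
    congr 1
    ext v
    rw [hY, mem_coe, mem_filter, Set.mem_inter_iff, mem_coe]
    exact and_comm
  have hsub : ∀ i : Y, (i : V) ∈ X := fun i => (mem_filter.mp i.2).1
  have h1 : pat X U ≤ 2 ^ Y.card := by
    have h2 : ((fun (x : V → ZMod 2) (i : X) => x i) '' U).ncard ≤
        (Set.univ : Set (Y → ZMod 2)).ncard := by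
      apply Set.ncard_le_ncard_of_injOn (fun (p : X → ZMod 2) (i : Y) => p ⟨i, hsub i⟩)
      · intro p _; exact Set.mem_univ _
      · rintro _ ⟨x, hx, rfl⟩ _ ⟨y, hy, rfl⟩ hxy
        funext i
        by_cases hi : (i : V) ∈ free U
        · exact congrFun hxy ⟨i, mem_filter.mpr ⟨i.2, hi⟩⟩
        · by_contra hne
          exact hi ⟨x, hx, y, hy, hne⟩
    unfold pat
    refine h2.trans (le_of_eq ?_)
    rw [Set.ncard_univ, Nat.card_eq_fintype_card, Fintype.card_fun, ZMod.card, Fintype.card_coe]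
  rw [hYX]
  exact (Nat.pow_le_pow_iff_right (by norm_num)).mp (h.trans h1)

theorem bool_core : ∀ p00 p01 p10 p11 q00 q01 q10 q11 : Bool,
    (p00 && q00) = false → (p01 && q01) = false → (p10 && q10) = false → (p11 && q11) = false →
    ((p00 && q01) || (p01 && q00) || (p10 && q11) || (p11 && q10)) = true →
    ((p00 && q10) || (p10 && q00) || (p01 && q11) || (p11 && q01)) = true →
    ((p00 && q11) || (p11 && q00) || (p01 && q10) || (p10 && q01)) = true →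
    (((p00 || p01) && (p10 || p11) && (p00 || p10) && (p01 || p11) &&
      !((q00 || q01) && (q10 || q11)) && !((q00 || q10) && (q01 || q11))) ||
     ((q00 || q01) && (q10 || q11) && (q00 || q10) && (q01 || q11) &&
      !((p00 || p01) && (p10 || p11)) && !((p00 || p10) && (p01 || p11)))) = true := by
  decide

theorem zmod2_cases (a : ZMod 2) : a = 0 ∨ a = 1 := by
  revert a; decide

/-- The edge lemma: if all sums cover the edge `uv` and all three patterns occur, then the edge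
lies in `F \ F'` or in `F' \ F`. -/
theorem edge_lemma {U U' : Set (V → ZMod 2)} {u v : V}
    (h : ∀ x ∈ U, ∀ y ∈ U', (x + y) u = 1 ∨ (x + y) v = 1)
    (hall : ∀ a b : ZMod 2, (a = 1 ∨ b = 1) → ∃ x ∈ U, ∃ y ∈ U', (x + y) u = a ∧ (x + y) v = b) :
    ((u ∈ free U ∧ u ∉ free U') ∧ (v ∈ free U ∧ v ∉ free U')) ∨
      ((u ∈ free U' ∧ u ∉ free U) ∧ (v ∈ free U' ∧ v ∉ free U)) := by
  classical
  set P : ZMod 2 → ZMod 2 → Prop := fun a b => ∃ x ∈ U, x u = a ∧ x v = b with hP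
  set Q : ZMod 2 → ZMod 2 → Prop := fun a b => ∃ x ∈ U', x u = a ∧ x v = b with hQ
  have hPmem : ∀ x ∈ U, P (x u) (x v) := fun x hx => ⟨x, hx, rfl, rfl⟩
  have hQmem : ∀ x ∈ U', Q (x u) (x v) := fun x hx => ⟨x, hx, rfl, rfl⟩
  have hdis : ∀ a b, ¬ (P a b ∧ Q a b) := by
    rintro a b ⟨⟨x, hx, hxa, hxb⟩, ⟨y, hy, hya, hyb⟩⟩
    have h1 := h x hx y hy
    simp only [Pi.add_apply, hxa, hxb, hya, hyb, CharTwo.add_self_eq_zero] at h1
    rcases h1 with h1 | h1 <;> exact absurd h1 (by decide)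
  have hsum : ∀ a b : ZMod 2, (a = 1 ∨ b = 1) → ∃ c d, P c d ∧ Q (a + c) (b + d) := by
    intro a b hab
    obtain ⟨x, hx, y, hy, h1, h2⟩ := hall a b hab
    refine ⟨x u, x v, hPmem x hx, y, hy, ?_, ?_⟩
    · rw [← h1, Pi.add_apply, add_comm (x u) (y u), add_assoc, CharTwo.add_self_eq_zero, add_zero]
    · rw [← h2, Pi.add_apply, add_comm (x v) (y v), add_assoc, CharTwo.add_self_eq_zero, add_zero]
  have e01 := hsum 0 1 (Or.inr rfl)
  have e10 := hsum 1 0 (Or.inl rfl)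
  have e11 := hsum 1 1 (Or.inl rfl)
  have h11 : (1 : ZMod 2) + 1 = 0 := by decide
  have ex2 : ∀ R : ZMod 2 → ZMod 2 → Prop, (∃ c d, R c d) →
      R 0 0 ∨ R 0 1 ∨ R 1 0 ∨ R 1 1 := by
    rintro R ⟨c, d, hcd⟩
    rcases zmod2_cases c with rfl | rfl
    · rcases zmod2_cases d with rfl | rfl
      · exact Or.inl hcd
      · exact Or.inr (Or.inl hcd)
    · rcases zmod2_cases d with rfl | rfl
      · exact Or.inr (Or.inr (Or.inl hcd))
      · exact Or.inr (Or.inr (Or.inr hcd))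
  have f01 := ex2 _ e01
  have f10 := ex2 _ e10
  have f11 := ex2 _ e11
  simp only [add_zero, zero_add, h11] at f01 f10 f11
  have hdis' : ∀ a b, (decide (P a b) && decide (Q a b)) = false := by
    intro a b
    by_cases h1 : P a b
    · by_cases h2 : Q a b
      · exact absurd ⟨h1, h2⟩ (hdis a b)
      · rw [decide_eq_false h2, Bool.and_false]
    · rw [decide_eq_false h1, Bool.false_and]
  have key := bool_core (decide (P 0 0)) (decide (P 0 1)) (decide (P 1 0)) (decide (P 1 1))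
    (decide (Q 0 0)) (decide (Q 0 1)) (decide (Q 1 0)) (decide (Q 1 1))
    (hdis' 0 0) (hdis' 0 1) (hdis' 1 0) (hdis' 1 1)
    (by rcases f01 with ⟨h1, h2⟩ | ⟨h1, h2⟩ | ⟨h1, h2⟩ | ⟨h1, h2⟩ <;>
          rw [decide_eq_true h1, decide_eq_true h2] <;> simp only [Bool.and_true, Bool.true_or,
            Bool.or_true])
    (by rcases f10 with ⟨h1, h2⟩ | ⟨h1, h2⟩ | ⟨h1, h2⟩ | ⟨h1, h2⟩ <;>
          rw [decide_eq_true h1, decide_eq_true h2] <;> simp only [Bool.and_true, Bool.true_or,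
            Bool.or_true])
    (by rcases f11 with ⟨h1, h2⟩ | ⟨h1, h2⟩ | ⟨h1, h2⟩ | ⟨h1, h2⟩ <;>
          rw [decide_eq_true h1, decide_eq_true h2] <;> simp only [Bool.and_true, Bool.true_or,
            Bool.or_true])
  simp only [Bool.or_eq_true, Bool.and_eq_true, decide_eq_true_eq, Bool.not_eq_true',
    Bool.and_eq_false_iff, Bool.or_eq_false_iff, decide_eq_false_iff_not] at key
  -- membership in `free`
  have fr1 : ∀ (S : Set (V → ZMod 2)) (w : V), (∃ x ∈ S, x w = 0) → (∃ x ∈ S, x w = 1) →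
      w ∈ free S := by
    rintro S w ⟨x, hx, h1⟩ ⟨y, hy, h2⟩
    exact ⟨x, hx, y, hy, by rw [h1, h2]; decide⟩
  have fr2 : ∀ (S : Set (V → ZMod 2)) (w : V), w ∈ free S →
      (∃ x ∈ S, x w = 0) ∧ (∃ x ∈ S, x w = 1) := by
    rintro S w ⟨x, hx, y, hy, hne⟩
    rcases zmod2_cases (x w) with h1 | h1 <;> rcases zmod2_cases (y w) with h2 | h2
    · exact absurd (h1.trans h2.symm) hne
    · exact ⟨⟨x, hx, h1⟩, ⟨y, hy, h2⟩⟩
    · exact ⟨⟨y, hy, h2⟩, ⟨x, hx, h1⟩⟩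
    · exact absurd (h1.trans h2.symm) hne
  have pu0 : (∃ x ∈ U, x u = 0) ↔ P 0 0 ∨ P 0 1 := by
    constructor
    · rintro ⟨x, hx, h1⟩
      rcases zmod2_cases (x v) with h2 | h2
      · exact Or.inl ⟨x, hx, h1, h2⟩
      · exact Or.inr ⟨x, hx, h1, h2⟩
    · rintro (⟨x, hx, h1, _⟩ | ⟨x, hx, h1, _⟩) <;> exact ⟨x, hx, h1⟩
  have pu1 : (∃ x ∈ U, x u = 1) ↔ P 1 0 ∨ P 1 1 := by
    constructor
    · rintro ⟨x, hx, h1⟩
      rcases zmod2_cases (x v) with h2 | h2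
      · exact Or.inl ⟨x, hx, h1, h2⟩
      · exact Or.inr ⟨x, hx, h1, h2⟩
    · rintro (⟨x, hx, h1, _⟩ | ⟨x, hx, h1, _⟩) <;> exact ⟨x, hx, h1⟩
  have pv0 : (∃ x ∈ U, x v = 0) ↔ P 0 0 ∨ P 1 0 := by
    constructor
    · rintro ⟨x, hx, h1⟩
      rcases zmod2_cases (x u) with h2 | h2
      · exact Or.inl ⟨x, hx, h2, h1⟩
      · exact Or.inr ⟨x, hx, h2, h1⟩
    · rintro (⟨x, hx, _, h1⟩ | ⟨x, hx, _, h1⟩) <;> exact ⟨x, hx, h1⟩
  have pv1 : (∃ x ∈ U, x v = 1) ↔ P 0 1 ∨ P 1 1 := by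
    constructor
    · rintro ⟨x, hx, h1⟩
      rcases zmod2_cases (x u) with h2 | h2
      · exact Or.inl ⟨x, hx, h2, h1⟩
      · exact Or.inr ⟨x, hx, h2, h1⟩
    · rintro (⟨x, hx, _, h1⟩ | ⟨x, hx, _, h1⟩) <;> exact ⟨x, hx, h1⟩
  have qu0 : (∃ x ∈ U', x u = 0) ↔ Q 0 0 ∨ Q 0 1 := by
    constructor
    · rintro ⟨x, hx, h1⟩
      rcases zmod2_cases (x v) with h2 | h2
      · exact Or.inl ⟨x, hx, h1, h2⟩
      · exact Or.inr ⟨x, hx, h1, h2⟩
    · rintro (⟨x, hx, h1, _⟩ | ⟨x, hx, h1, _⟩) <;> exact ⟨x, hx, h1⟩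
  have qu1 : (∃ x ∈ U', x u = 1) ↔ Q 1 0 ∨ Q 1 1 := by
    constructor
    · rintro ⟨x, hx, h1⟩
      rcases zmod2_cases (x v) with h2 | h2
      · exact Or.inl ⟨x, hx, h1, h2⟩
      · exact Or.inr ⟨x, hx, h1, h2⟩
    · rintro (⟨x, hx, h1, _⟩ | ⟨x, hx, h1, _⟩) <;> exact ⟨x, hx, h1⟩
  have qv0 : (∃ x ∈ U', x v = 0) ↔ Q 0 0 ∨ Q 1 0 := by
    constructor
    · rintro ⟨x, hx, h1⟩
      rcases zmod2_cases (x u) with h2 | h2
      · exact Or.inl ⟨x, hx, h2, h1⟩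
      · exact Or.inr ⟨x, hx, h2, h1⟩
    · rintro (⟨x, hx, _, h1⟩ | ⟨x, hx, _, h1⟩) <;> exact ⟨x, hx, h1⟩
  have qv1 : (∃ x ∈ U', x v = 1) ↔ Q 0 1 ∨ Q 1 1 := by
    constructor
    · rintro ⟨x, hx, h1⟩
      rcases zmod2_cases (x u) with h2 | h2
      · exact Or.inl ⟨x, hx, h2, h1⟩
      · exact Or.inr ⟨x, hx, h2, h1⟩
    · rintro (⟨x, hx, _, h1⟩ | ⟨x, hx, _, h1⟩) <;> exact ⟨x, hx, h1⟩
  rcases key with ⟨⟨⟨⟨⟨k1, k2⟩, k3⟩, k4⟩, k5⟩, k6⟩ | ⟨⟨⟨⟨⟨k1, k2⟩, k3⟩, k4⟩, k5⟩, k6⟩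
  · left
    refine ⟨⟨fr1 U u (pu0.mpr k1) (pu1.mpr k2), fun hu => ?_⟩,
      ⟨fr1 U v (pv0.mpr k3) (pv1.mpr k4), fun hv => ?_⟩⟩
    · have := fr2 _ _ hu
      rw [qu0, qu1] at this
      rcases k5 with ⟨n1, n2⟩ | ⟨n1, n2⟩
      · exact this.1.elim n1 n2
      · exact this.2.elim n1 n2
    · have := fr2 _ _ hv
      rw [qv0, qv1] at this
      rcases k6 with ⟨n1, n2⟩ | ⟨n1, n2⟩
      · exact this.1.elim n1 n2
      · exact this.2.elim n1 n2
  · right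
    refine ⟨⟨fr1 U' u (qu0.mpr k1) (qu1.mpr k2), fun hu => ?_⟩,
      ⟨fr1 U' v (qv0.mpr k3) (qv1.mpr k4), fun hv => ?_⟩⟩
    · have := fr2 _ _ hu
      rw [pu0, pu1] at this
      rcases k5 with ⟨n1, n2⟩ | ⟨n1, n2⟩
      · exact this.1.elim n1 n2
      · exact this.2.elim n1 n2
    · have := fr2 _ _ hv
      rw [pv0, pv1] at this
      rcases k6 with ⟨n1, n2⟩ | ⟨n1, n2⟩
      · exact this.1.elim n1 n2
      · exact this.2.elim n1 n2

end Pool.Agent.Helper34.XTW
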