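import Mathlib

/-!
# Local switching

A family of far apart local events, each of which can be destroyed by changing few coordinates
inside its own neighbourhood, is exponentially unlikely.
-/

set_option autoImplicit false

namespace Pool.Agent.Helper34.XTW

open Finset

variable {V ι : Type*}

/-- One step of the switching argument. -/
theorem switch_step [Fintype V] [DecidableEq V] (B : Finset (V → ZMod 2)) (nb : Finset V)
    (good : (V → ZMod 2) → Prop) [DecidablePred good] (N : ℕ) (hN : nb.card ≤ N)
    (h : ∀ x ∈ B, ∃ y ∈ B, (∀ v ∉ nb, y v = x v) ∧ ¬ good y) :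
    ((B.filter good).card : ℝ) ≤ 2 ^ N / (2 ^ N + 1) * B.card := by
  classical
  have key : (B.filter good).card ≤ 2 ^ N * (B.filter fun x => ¬ good x).card := by
    choose! φ h1 h2 h3 using h
    refine card_le_mul_card_image_of_maps_to (f := φ) ?_ _ ?_
    · intro x hx
      rw [mem_filter] at hx ⊢
      exact ⟨h1 x hx.1, h3 x hx.1⟩
    · intro b _
      have h4 : ((B.filter good).filter fun x => φ x = b).card ≤
          (Finset.univ : Finset (nb → ZMod 2)).card := by
        apply card_le_card_of_injOn (fun x (i : nb) => x i)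
        · intro x _
          exact mem_coe.mpr (mem_univ _)
        · intro x hx y hy hxy
          simp only [coe_filter, mem_filter, Set.mem_ofPred_eq] at hx hy
          funext v
          by_cases hv : v ∈ nb
          · exact congrFun hxy ⟨v, hv⟩
          · rw [← h2 x hx.1.1 v hv, ← h2 y hy.1.1 v hv, hx.2, hy.2]
      refine h4.trans ?_
      rw [card_univ, Fintype.card_fun, ZMod.card, Fintype.card_coe]
      exact Nat.pow_le_pow_right (by norm_num) hN
  have hsum : (B.filter good).card + (B.filter fun x => ¬ good x).card = B.card :=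
    Finset.card_filter_add_card_filter_not _
  have hsum' : ((B.filter good).card : ℝ) + ((B.filter fun x => ¬ good x).card : ℝ) = B.card := by
    exact_mod_cast hsum
  have key' : ((B.filter good).card : ℝ) ≤ 2 ^ N * ((B.filter fun x => ¬ good x).card : ℝ) := by
    exact_mod_cast key
  have hp : (0 : ℝ) < 2 ^ N := by positivity
  rw [div_mul_eq_mul_div, le_div_iff₀ (by positivity)]
  nlinarith

/-- The switching lemma. -/
theorem switch [Fintype V] [DecidableEq V] [DecidableEq ι] (A : Set (V → ZMod 2)) (M : Finset ι)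
    (core nb : ι → Finset V) (good : ι → (V → ZMod 2) → Prop) (N : ℕ)
    (hdis : ∀ i ∈ M, ∀ j ∈ M, i ≠ j → Disjoint (core i) (nb j))
    (hdep : ∀ i ∈ M, ∀ x y : V → ZMod 2, (∀ v ∈ core i, y v = x v) → good i x → good i y)
    (hN : ∀ i ∈ M, (nb i).card ≤ N)
    (h : ∀ i ∈ M, ∀ x ∈ A, ∃ y ∈ A, (∀ v ∉ nb i, y v = x v) ∧ ¬ good i y) :
    (({x ∈ A | ∀ i ∈ M, good i x} : Set (V → ZMod 2)).ncard : ℝ) ≤
      (2 ^ N / (2 ^ N + 1)) ^ M.card * A.ncard := by
  classical
  induction M using Finset.induction_on with
  | empty => simp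
  | insert j M hj ih =>
    have ih' := ih
      (fun i hi i' hi' hne => hdis i (mem_insert_of_mem hi) i' (mem_insert_of_mem hi') hne)
      (fun i hi => hdep i (mem_insert_of_mem hi))
      (fun i hi => hN i (mem_insert_of_mem hi)) (fun i hi => h i (mem_insert_of_mem hi))
    set B : Finset (V → ZMod 2) := ({x ∈ A | ∀ i ∈ M, good i x} : Set (V → ZMod 2)).toFinset
      with hB
    have hmem : ∀ x, x ∈ B ↔ x ∈ A ∧ ∀ i ∈ M, good i x := by
      intro x; rw [hB, Set.mem_toFinset]; rfl
    have e1 : ({x ∈ A | ∀ i ∈ M, good i x} : Set (V → ZMod 2)).ncard = B.card := by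
      rw [hB, Set.ncard_eq_toFinset_card']
    have e2 : ({x ∈ A | ∀ i ∈ insert j M, good i x} : Set (V → ZMod 2)).ncard =
        (B.filter (good j)).card := by
      rw [← Set.ncard_coe_finset]
      congr 1
      ext x
      simp only [Set.mem_ofPred_eq, coe_filter, hmem, Finset.mem_insert, forall_eq_or_imp]
      tauto
    rw [e2, card_insert_of_notMem hj, pow_succ']
    have hstep := switch_step B (nb j) (good j) N (hN j (mem_insert_self _ _)) (by
      intro x hx
      rw [hmem] at hx
      obtain ⟨y, hy1, hy2, hy3⟩ := h j (mem_insert_self _ _) x hx.1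
      refine ⟨y, ?_, hy2, hy3⟩
      rw [hmem]
      refine ⟨hy1, fun i hi => ?_⟩
      have hij : i ≠ j := fun h => hj (h ▸ hi)
      have hd := hdis i (mem_insert_of_mem hi) j (mem_insert_self _ _) hij
      refine hdep i (mem_insert_of_mem hi) x y (fun v hv => ?_) (hx.2 i hi)
      exact hy2 v (Finset.disjoint_left.mp hd hv))
    refine hstep.trans ?_
    rw [mul_assoc]
    refine mul_le_mul_of_nonneg_left ?_ (by positivity)
    rw [← e1]
    exact ih'

end Pool.Agent.Helper34.XTW
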