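import Pool.Agent.Helper34.XTW.Dp3
import Pool.Agent.Helper34.XTW.StarLinked

/-!
# Small programs for vertex covers of graphs of small tree-width
-/

set_option autoImplicit false

namespace Pool.Agent.Helper34.XTW

open SimpleGraph Pool.Agent.Dichotomy Pool.Agent.Helper97.Pendant

variable {V : Type}

/-- The vertex covers of a graph with a tree-decomposition of width `w` are computed by a program
with `O(2 ^ w |V|)` gates. -/
theorem upper [Fintype V] [DecidableEq V] (G : SimpleGraph V) (w : ℕ)
    (h : HasTreeDecomposition G w) :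
    ∃ (m : ℕ) (rk : Fin m → ℕ) (M : Fin m → Set (V → ZMod 2)) (i : Fin m),
      m ≤ 2 ^ (w + 1) * (4 * Fintype.card V + 2) + 1 ∧ IsProg rk 0 M ∧ M i = VC G := by
  classical
  obtain ⟨N, hN, T, bag, hT, hv, he, hc, hw⟩ := h
  let _ : Fintype N := Fintype.ofFinite N
  have hst : St G w T (fun i => (bag i).toFinset) Finset.univ ∅ (fun _ _ => {0})
      {({0} : Set (V → ZMod 2))} := by
    refine ⟨hT, fun i => Finset.subset_univ _, ?_, ?_, ?_, fun _ _ _ _ => rfl, fun _ _ _ => rfl,
      rfl, fun _ _ => rfl⟩
    · intro u _ v _ huv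
      obtain ⟨i, h1, h2⟩ := he u v huv
      exact ⟨i, by simpa using h1, by simpa using h2⟩
    · intro v _
      have e : {i | v ∈ (bag i).toFinset} = {i | v ∈ bag i} := by
        ext i
        exact Set.mem_toFinset
      rw [e]
      exact hc v
    · intro i
      rw [← Set.ncard_eq_toFinset_card']
      exact hw i
  have hr0 : Reach 1 {({0} : Set (V → ZMod 2))} := by
    have := (reach_zero (V := V)).add_one (S := {0}) (Or.inl (isAffine_singleton _))
    exact this.mono le_rfl (fun T hT => Or.inr hT)
  have hr := dp_main w _ N T _ _ _ _ _ _ le_rfl hst hr0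
  have hpsi : Psi G (Finset.univ : Finset V) (fun (_ : N) (_ : V → ZMod 2) =>
      ({0} : Set (V → ZMod 2))) = VC G := by
    ext z
    constructor
    · rintro ⟨y, -, hy, m, hm, rfl⟩
      have h0 : ∑ i, m i = 0 := Finset.sum_eq_zero (fun i _ => hm i)
      rw [h0, add_zero]
      exact fun u v huv => hy u (Finset.mem_univ _) v (Finset.mem_univ _) huv
    · intro hz
      refine ⟨z, fun v hv => absurd (Finset.mem_univ v) hv, fun u _ v _ huv => hz u v huv,
        fun _ => 0, fun _ => rfl, ?_⟩
      simp
  rw [hpsi] at hr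
  obtain ⟨m, rk, M, i, h1, h2, h3⟩ := hr.prog
  refine ⟨m, rk, M, i, h1.trans ?_, h2, h3⟩
  rw [Finset.card_empty, Finset.card_univ, add_zero, add_comm]

/-- The same bound in terms of the tree-width. -/
theorem upper_treewidth [Fintype V] [DecidableEq V] (G : SimpleGraph V) :
    ∃ (m : ℕ) (rk : Fin m → ℕ) (M : Fin m → Set (V → ZMod 2)) (i : Fin m),
      m ≤ 2 ^ (treewidth G + 1) * (4 * Fintype.card V + 2) + 1 ∧ IsProg rk 0 M ∧
        M i = VC G := by
  apply upper
  have hne : {w | HasTreeDecomposition G w}.Nonempty := by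
    refine ⟨(Set.univ : Set V).ncard, ?_⟩
    rw [Set.mem_ofPred_eq, td_univ_iff]
    exact td_of_ncard_le G (Nat.le_succ _)
  exact Nat.sInf_mem hne

end Pool.Agent.Helper34.XTW
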